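import Pool.Agent.Helper999.Irr.Tree

/-!
The main case: the last edge joins a vertex with at least four neighbours and a vertex with at
most three neighbours.
-/

namespace Pool.Agent.Helper999.Irr

open Finset

lemma mult_card_eq (b a L : ℕ) :
    ((Ioc a (a + L)).filter (fun r => b ∣ r)).card = (a + L) / b - a / b := by
  have h1 := Nat.Ioc_filter_dvd_card_eq_div (a + L) b
  have h2 := Nat.Ioc_filter_dvd_card_eq_div a b
  have h3 : (Ioc 0 (a + L)).filter (fun r => b ∣ r) =
      (Ioc 0 a).filter (fun r => b ∣ r) ∪ (Ioc a (a + L)).filter (fun r => b ∣ r) := by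
    ext r
    simp only [mem_filter, mem_Ioc, mem_union]
    constructor
    · rintro ⟨⟨h, h'⟩, h''⟩
      by_cases hr : r ≤ a
      · exact Or.inl ⟨⟨h, hr⟩, h''⟩
      · exact Or.inr ⟨⟨by omega, h'⟩, h''⟩
    · rintro (⟨⟨h, h'⟩, h''⟩ | ⟨⟨h, h'⟩, h''⟩)
      · exact ⟨⟨h, by omega⟩, h''⟩
      · exact ⟨⟨by omega, h'⟩, h''⟩
  have h4 : Disjoint ((Ioc 0 a).filter (fun r => b ∣ r))
      ((Ioc a (a + L)).filter (fun r => b ∣ r)) := by
    rw [disjoint_left]
    intro r hr hr'
    rw [mem_filter, mem_Ioc] at hr hr'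
    omega
  rw [h3, card_union_of_disjoint h4, h2] at h1
  omega

lemma mult_card_le (b a L : ℕ) (hb : 1 ≤ b) :
    ((Ioc a (a + L)).filter (fun r => b ∣ r)).card ≤ L / b + 1 := by
  rw [mult_card_eq]
  have h : (a + L) / b ≤ L / b + 1 + a / b := by
    rw [Nat.add_div hb]
    generalize a / b = s
    generalize L / b = t
    split_ifs <;> omega
  exact Nat.sub_le_iff_le_add.2 h

lemma mult_card_four (b a : ℕ) (hb : 1 ≤ b) :
    4 ≤ ((Ioc a (a + 4 * b)).filter (fun r => b ∣ r)).card := by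
  rw [mult_card_eq, Nat.add_mul_div_right _ _ hb]
  omega

theorem caseA {V : Type} [Fintype V] [DecidableEq V] (c : V) (par : V → V) (dep : V → ℕ)
    (hdep : ∀ v, v ≠ c → dep v = dep (par v) + 1) (p : ℕ) (hp : (leaves c par).card = p)
    (hc : 4 ≤ (ch c par c).card) (x : V) (hx : x ∈ ch c par c)
    (hx2 : (ch c par x).card ≤ 2) (hxn : (ch c par x).Nonempty) (b : ℕ) (hb : 1 ≤ b)
    (hm : (univ \ leaves c par).card + 16 * b + 2 * (p / b) + 20 ≤ p) :
    ∃ e : V → ℕ, (∀ v, v ≠ c → 1 ≤ e v ∧ e v ≤ p) ∧ Function.Injective (W c par e) := by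
  classical
  set Lf := leaves c par with hLf
  set Inn : Finset V := ((univ \ Lf).erase c).erase x with hInn
  have memInn : ∀ v, v ∈ Inn ↔ v ≠ x ∧ v ≠ c ∧ v ∉ Lf := by
    intro v; simp [hInn]
  have hxc : x ≠ c := (mem_ch.1 hx).1
  have hpx : par x = c := (mem_ch.1 hx).2
  have hInnCard : Inn.card ≤ (univ \ Lf).card :=
    card_le_card ((erase_subset _ _).trans (erase_subset _ _))
  -- the special children
  have h3c : 3 ≤ ((ch c par c).erase x).card := by
    rw [card_erase_of_mem hx]; omega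
  obtain ⟨Hc, hHc, hHc3⟩ := exists_subset_card_eq h3c
  obtain ⟨hx0, hhx⟩ := hxn
  set H : Finset V := insert hx0 Hc with hH
  have hHpar : ∀ u ∈ H, par u = c ∨ par u = x := by
    intro u hu
    rw [hH, mem_insert] at hu
    rcases hu with rfl | hu
    · exact Or.inr (mem_ch.1 hhx).2
    · exact Or.inl (mem_ch.1 (mem_of_mem_erase (hHc hu))).2
  have hHc' : H.card ≤ 4 := by
    rw [hH]; have := card_insert_le hx0 Hc; omega
  set D : Finset V := H.filter (fun u => u ∈ Lf) with hD
  set Sp : Finset V := H.filter (fun u => u ∉ Lf) with hSp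
  have hDc : D.card ≤ 4 := le_trans (card_filter_le _ _) hHc'
  have hSpc : Sp.card ≤ 4 := le_trans (card_filter_le _ _) hHc'
  have hDL : D ⊆ Lf := fun u hu => (mem_filter.1 hu).2
  -- one-leaf ends and other ends
  set S : Finset V := Inn.filter (fun v => (ch c par v).card = 1 ∧ ch c par v ⊆ Lf) with hS
  set M : Finset V := Inn.filter (fun v => 2 ≤ (ch c par v).card ∧ ch c par v ⊆ Lf) with hM
  set SL : Finset V := S.biUnion (ch c par) with hSL
  have memSL : ∀ f, f ∈ SL ↔ ∃ v ∈ S, f ∈ ch c par v := by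
    intro f; simp [hSL]
  have hSLpar : ∀ f ∈ SL, par f ∈ S := by
    intro f hf
    obtain ⟨v, hv, hfv⟩ := (memSL f).1 hf
    rw [(mem_ch.1 hfv).2]; exact hv
  have hSLL : SL ⊆ Lf := by
    intro f hf
    obtain ⟨v, hv, hfv⟩ := (memSL f).1 hf
    exact (mem_filter.1 hv).2.2 hfv
  have hSLc : SL.card = S.card := by
    rw [hSL, card_biUnion]
    · rw [sum_congr rfl (fun v hv => (mem_filter.1 hv).2.1)]
      simp
    · intro u _ v _ huv
      change Disjoint (ch c par u) (ch c par v)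
      rw [disjoint_left]
      intro f hf hf'
      exact huv ((mem_ch.1 hf).2.symm.trans (mem_ch.1 hf').2)
  have hInnpar : ∀ v ∈ Inn, v ≠ c ∧ v ≠ x := fun v hv => ⟨((memInn v).1 hv).2.1, ((memInn v).1 hv).1⟩
  have hSLD : Disjoint SL D := by
    rw [disjoint_left]
    intro f hf hfD
    have h1 := hInnpar _ (mem_filter.1 (hSLpar f hf)).1
    rcases hHpar f (mem_filter.1 hfD).1 with h | h
    · exact h1.1 h
    · exact h1.2 h
  have hM2 : ∀ v : V, ∃ fg : V × V, v ∈ M → fg.1 ∈ ch c par v ∧ fg.2 ∈ ch c par v ∧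
      fg.1 ≠ fg.2 := by
    intro v
    by_cases hv : v ∈ M
    · obtain ⟨a, ha, a', ha', hne⟩ := one_lt_card.1 (mem_filter.1 hv).2.1
      exact ⟨(a, a'), fun _ => ⟨ha, ha', hne⟩⟩
    · exact ⟨(v, v), fun h => absurd h hv⟩
  choose fg hfg using hM2
  have hMf : ∀ v ∈ M, ∀ f ∈ ch c par v, f ∈ Lf ∧ f ∉ SL ∧ f ∉ D := by
    intro v hv f hf
    refine ⟨(mem_filter.1 hv).2.2 hf, ?_, ?_⟩
    · intro hfS
      have h1 := hSLpar f hfS
      rw [(mem_ch.1 hf).2] at h1
      have h2 := (mem_filter.1 h1).2.1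
      have h3 := (mem_filter.1 hv).2.1
      omega
    · intro hfD
      have h1 := hInnpar _ (mem_filter.1 hv).1
      rcases hHpar f (mem_filter.1 hfD).1 with h | h
      · rw [(mem_ch.1 hf).2] at h; exact h1.1 h
      · rw [(mem_ch.1 hf).2] at h; exact h1.2 h
  obtain ⟨e0, he1, he2, he3, he4, he5⟩ := exists_labels Lf p hp SL D M (fun v => (fg v).1)
    (fun v => (fg v).2) hSLL hDL hSLD
    (fun v hv => hMf v hv _ (hfg v hv).1) (fun v hv => hMf v hv _ (hfg v hv).2.1)
    (by
      intro u hu v hv huv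
      have h1 := (mem_ch.1 (hfg u hu).1).2
      have h2 := (mem_ch.1 (hfg v hv).1).2
      simp only at huv
      rw [← h1, ← h2, huv])
    (by
      intro u hu v hv huv
      have h1 := (mem_ch.1 (hfg u hu).2.1).2
      have h2 := (mem_ch.1 (hfg v hv).2.1).2
      simp only at huv
      rw [← h1, ← h2, huv])
    (by
      intro u hu v hv huv
      have h1 := (mem_ch.1 (hfg u hu).1).2
      have h2 := (mem_ch.1 (hfg v hv).2.1).2
      have h3 : u = v := by rw [← h1, ← h2, huv]
      subst h3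
      exact (hfg u hu).2.2 huv)
  -- the greedy procedure
  have hdep' : ∀ v, ∀ u ∈ ch c par v, dep v < dep u := by
    intro v u hu
    have := hdep u (mem_ch.1 hu).1
    rw [(mem_ch.1 hu).2] at this
    omega
  have hLI : Disjoint Lf Inn := by
    rw [disjoint_left]
    intro v hv hvI
    exact ((memInn v).1 hvI).2.2 hv
  have hsing : ∀ v ∈ S, ∃ f, ch c par v = {f} := fun v hv =>
    card_eq_one.1 (mem_filter.1 hv).2.1
  have hS1 : ∀ v ∈ S, ch c par v ⊆ Lf ∧ 1 ≤ ∑ u ∈ ch c par v, e0 u ∧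
      ∑ u ∈ ch c par v, e0 u ≤ S.card := by
    intro v hv
    obtain ⟨f, hf⟩ := hsing v hv
    have hfm : f ∈ ch c par v := by rw [hf]; exact mem_singleton_self f
    have hfS : f ∈ SL := (memSL f).2 ⟨v, hv, hfm⟩
    refine ⟨(mem_filter.1 hv).2.2, ?_, ?_⟩
    · rw [hf, sum_singleton]; exact (he1 f (hSLL hfS)).1
    · rw [hf, sum_singleton, ← hSLc]; exact he3 f hfS
  have hS2 : Set.InjOn (fun v => ∑ u ∈ ch c par v, e0 u) S := by
    intro u hu v hv huv
    obtain ⟨f, hf⟩ := hsing u hu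
    obtain ⟨f', hf'⟩ := hsing v hv
    have hfm : f ∈ ch c par u := by rw [hf]; exact mem_singleton_self f
    have hfm' : f' ∈ ch c par v := by rw [hf']; exact mem_singleton_self f'
    simp only [hf, hf', sum_singleton] at huv
    have h1 := he2 (hSLL ((memSL f).2 ⟨u, hu, hfm⟩)) (hSLL ((memSL f').2 ⟨v, hv, hfm'⟩)) huv
    rw [← (mem_ch.1 hfm).2, ← (mem_ch.1 hfm').2, h1]
  have hInnch : ∀ v ∈ Inn, ∀ u ∈ ch c par v, u ∉ Lf → u ∈ Inn := by
    intro v hv u hu huL
    rw [memInn]
    refine ⟨?_, (mem_ch.1 hu).1, huL⟩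
    rintro rfl
    have h1 := (mem_ch.1 hu).2
    rw [hpx] at h1
    exact (hInnpar v hv).1 h1.symm
  have hN : ∀ v ∈ Inn, v ∉ S → (∃ u ∈ ch c par v, u ∈ Inn ∧ u ∉ Sp) ∨
      (ch c par v ⊆ Lf ∧ p ≤ ∑ u ∈ ch c par v, e0 u + (p / b + 4)) := by
    intro v hv hvS
    by_cases hall : ch c par v ⊆ Lf
    · right
      refine ⟨hall, ?_⟩
      have hne : (ch c par v).card ≠ 0 := by
        intro h0
        rw [card_eq_zero] at h0
        exact ((memInn v).1 hv).2.2 (mem_leaves.2 ⟨(hInnpar v hv).1, h0⟩)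
      have h1 : (ch c par v).card ≠ 1 := fun h => hvS (mem_filter.2 ⟨hv, h, hall⟩)
      have hvM : v ∈ M := mem_filter.2 ⟨hv, by omega, hall⟩
      have h2 := he5 v hvM
      obtain ⟨g1, g2, g3⟩ := hfg v hvM
      have h3 : e0 (fg v).1 + e0 (fg v).2 ≤ ∑ u ∈ ch c par v, e0 u := by
        rw [← sum_pair g3]
        apply sum_le_sum_of_subset
        intro a ha
        rw [mem_insert, mem_singleton] at ha
        rcases ha with rfl | rfl
        · exact g1
        · exact g2
      omega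
    · left
      obtain ⟨u, hu, huL⟩ := not_subset.1 hall
      refine ⟨u, hu, hInnch v hv u hu huL, ?_⟩
      intro huSp
      rcases hHpar u (mem_filter.1 huSp).1 with h | h
      · rw [(mem_ch.1 hu).2] at h; exact (hInnpar v hv).1 h
      · rw [(mem_ch.1 hu).2] at h; exact (hInnpar v hv).2 h
  obtain ⟨e1, ok⟩ := greedy (ch c par) dep hdep' Lf Inn S Sp hLI (filter_subset _ _)
    (fun r => b ∣ r ∧ p + S.card < r) p S.card (p / b + 1) (p / b + 4) (4 * b) e0 hS1 hS2 rfl hN
    (by
      intro a L hL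
      refine le_trans (card_le_card ?_) (le_trans (mult_card_le b a L hb)
        (Nat.add_le_add_right (Nat.div_le_div_right hL) 1))
      intro r hr
      rw [mem_filter] at hr ⊢
      exact ⟨hr.1, hr.2.1⟩)
    (by
      intro v _ a ha
      refine le_trans (mult_card_four b a hb) (card_le_card ?_)
      intro r hr
      rw [mem_filter, mem_Ioc] at hr ⊢
      exact ⟨hr.1, hr.2, by omega⟩)
    (fun r hr => hr.2) hSpc (by omega) (by omega) (by omega)
  -- the last edge
  set Ac := ∑ u ∈ (ch c par c).erase x, e1 u with hAc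
  set Ax := ∑ u ∈ ch c par x, e1 u with hAx
  have hle1 : ∀ v, v ≠ c → v ≠ x → 1 ≤ e1 v ∧ e1 v ≤ p := by
    intro v hv hvx
    by_cases hvL : v ∈ Lf
    · rw [ok.leaf v hvL]; exact he1 v hvL
    · have := ok.rng v ((memInn v).2 ⟨hvx, hv, hvL⟩)
      exact ⟨this.1, this.2.1⟩
  have hHe : ∀ u ∈ H, p + 1 ≤ e1 u + 4 * b := by
    intro u hu
    by_cases huL : u ∈ Lf
    · have := he4 u (mem_filter.2 ⟨hu, huL⟩)
      rw [ok.leaf u huL]
      omega
    · have huc : u ≠ c := by
        rw [hH, mem_insert] at hu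
        rcases hu with rfl | hu
        · exact (mem_ch.1 hhx).1
        · exact (mem_ch.1 (mem_of_mem_erase (hHc hu))).1
      have hux : u ≠ x := by
        rw [hH, mem_insert] at hu
        rcases hu with rfl | hu
        · intro h
          have := hdep' _ _ hhx
          rw [h] at this
          exact lt_irrefl _ this
        · exact (mem_erase.1 (hHc hu)).1
      have := ok.spec u ((memInn u).2 ⟨hux, huc, huL⟩) (mem_filter.2 ⟨hu, huL⟩)
      omega
  have hAc1 : 3 * (p + 1) ≤ Ac + 12 * b := by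
    have h1 : ∑ u ∈ Hc, e1 u ≤ Ac := sum_le_sum_of_subset hHc
    have h2 : ∑ _u ∈ Hc, (p + 1) ≤ ∑ u ∈ Hc, (e1 u + 4 * b) :=
      sum_le_sum (fun u hu => hHe u (by rw [hH]; exact mem_insert_of_mem hu))
    have h3 : ∑ _u ∈ Hc, (p + 1) = 3 * (p + 1) := by
      rw [sum_const, hHc3, smul_eq_mul]
    have h4 : ∑ u ∈ Hc, (e1 u + 4 * b) = ∑ u ∈ Hc, e1 u + 3 * (4 * b) := by
      rw [sum_add_distrib, sum_const, hHc3, smul_eq_mul]
    rw [h3, h4] at h2
    omega
  have hAx1 : p + 1 ≤ Ax + 4 * b := by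
    have h1 : e1 hx0 ≤ Ax := single_le_sum (fun _ _ => Nat.zero_le _) hhx
    have h2 := hHe hx0 (by rw [hH]; exact mem_insert_self _ _)
    omega
  have hAx2 : Ax ≤ 2 * p := by
    have h1 : Ax ≤ ∑ _u ∈ ch c par x, p := by
      apply sum_le_sum
      intro u hu
      refine (hle1 u (mem_ch.1 hu).1 ?_).2
      rintro rfl
      exact lt_irrefl _ (hdep' _ _ hu)
    rw [sum_const, smul_eq_mul] at h1
    exact h1.trans (Nat.mul_le_mul_right _ hx2)
  obtain ⟨w, hw, hwbad⟩ : ∃ w ∈ Ioc (4 * b) (p - 12 * b),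
      w ∉ Inn.image (fun u => if W1 (ch c par) e1 u ≤ Ac then W1 (ch c par) e1 u - Ax
        else W1 (ch c par) e1 u - Ac) := by
    by_contra hcon
    push Not at hcon
    have h1 := card_le_card (fun w hw => hcon w hw :
      Ioc (4 * b) (p - 12 * b) ⊆ Inn.image (fun u => if W1 (ch c par) e1 u ≤ Ac then
        W1 (ch c par) e1 u - Ax else W1 (ch c par) e1 u - Ac))
    have h2 : (Inn.image (fun u => if W1 (ch c par) e1 u ≤ Ac then
        W1 (ch c par) e1 u - Ax else W1 (ch c par) e1 u - Ac)).card ≤ Inn.card := card_image_le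
    rw [Nat.card_Ioc] at h1
    omega
  rw [mem_Ioc] at hw
  have hwx : ∀ u ∈ Inn, W1 (ch c par) e1 u ≠ Ax + w := by
    intro u hu h
    apply hwbad
    rw [mem_image]
    refine ⟨u, hu, ?_⟩
    rw [if_pos (by omega), h]
    omega
  have hwc : ∀ u ∈ Inn, W1 (ch c par) e1 u ≠ Ac + w := by
    intro u hu h
    apply hwbad
    rw [mem_image]
    refine ⟨u, hu, ?_⟩
    rw [if_neg (by omega), h]
    omega
  set e : V → ℕ := Function.update e1 x w with he
  have hex : e x = w := by simp [he]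
  have hne : ∀ u, u ≠ x → e u = e1 u := fun u hu => Function.update_of_ne hu _ _
  have hWc : W c par e c = Ac + w := by
    unfold W
    rw [if_pos rfl, ← sum_erase_add _ _ hx, hex, add_zero]
    congr 1
    exact sum_congr rfl (fun u hu => hne u (mem_erase.1 hu).1)
  have hWx : W c par e x = Ax + w := by
    unfold W
    rw [if_neg hxc, hex]
    congr 1
    refine sum_congr rfl (fun u hu => hne u ?_)
    rintro rfl
    exact lt_irrefl _ (hdep' _ _ hu)
  have hWI : ∀ v ∈ Inn, W c par e v = W1 (ch c par) e1 v := by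
    intro v hv
    unfold W W1
    rw [if_neg (hInnpar v hv).1, hne v (hInnpar v hv).2]
    congr 1
    refine sum_congr rfl (fun u hu => hne u ?_)
    rintro rfl
    have h1 := (mem_ch.1 hu).2
    rw [hpx] at h1
    exact (hInnpar v hv).1 h1.symm
  have hxL : x ∉ Lf := by
    intro h
    rw [hLf, mem_leaves] at h
    rw [h.2] at hhx
    exact notMem_empty _ hhx
  have hcases : ∀ v, v ∉ Lf → v = c ∨ v = x ∨ v ∈ Inn := by
    intro v hv
    by_cases h1 : v = c
    · exact Or.inl h1
    by_cases h2 : v = x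
    · exact Or.inr (Or.inl h2)
    exact Or.inr (Or.inr ((memInn v).2 ⟨h2, h1, hv⟩))
  refine ⟨e, ?_, ?_⟩
  · intro v hv
    by_cases hvx : v = x
    · subst hvx
      rw [hex]; omega
    · rw [hne v hvx]; exact hle1 v hv hvx
  · apply W_injective c par p e
    · intro f hf
      have hfx : f ≠ x := fun h => hxL (h ▸ hf)
      rw [hne f hfx, ok.leaf f hf]
      exact he1 f hf
    · intro f hf f' hf' hff
      have hfx : f ≠ x := fun h => hxL (h ▸ hf)
      have hfx' : f' ≠ x := fun h => hxL (h ▸ hf')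
      rw [hne f hfx, hne f' hfx', ok.leaf f hf, ok.leaf f' hf'] at hff
      exact he2 hf hf' hff
    · intro v hv
      rcases hcases v hv with rfl | rfl | h
      · rw [hWc]; omega
      · rw [hWx]; omega
      · rw [hWI v h]; exact (ok.rng v h).2.2
    · intro u v hu hv huv
      rcases hcases u hu with rfl | rfl | h1 <;> rcases hcases v hv with rfl | rfl | h2
      · rfl
      · rw [hWc, hWx] at huv; omega
      · rw [hWc, hWI v h2] at huv; exact absurd huv.symm (hwc v h2)
      · rw [hWc, hWx] at huv; omega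
      · rfl
      · rw [hWx, hWI v h2] at huv; exact absurd huv.symm (hwx v h2)
      · rw [hWc, hWI u h1] at huv; exact absurd huv (hwc u h1)
      · rw [hWx, hWI u h1] at huv; exact absurd huv (hwx u h1)
      · rw [hWI u h1, hWI v h2] at huv; exact ok.inj h1 h2 huv

end Pool.Agent.Helper999.Irr
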