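import Pool.Agent.Helper999.Irr.Tree

/-!
The case of trees all of whose inner vertices have degree at least four.
-/

namespace Pool.Agent.Helper999.Irr

open Finset

theorem caseB {V : Type} [Fintype V] [DecidableEq V] (c : V) (par : V → V) (dep : V → ℕ)
    (hdep : ∀ v, v ≠ c → dep v = dep (par v) + 1) (p : ℕ) (hp : (leaves c par).card = p)
    (hdeg : ∀ v, v ≠ c → (ch c par v).Nonempty → 3 ≤ (ch c par v).card)
    (hc : 4 ≤ (ch c par c).card) (x z : V) (hx : x ∈ ch c par c) (hxl : ch c par x ⊆ leaves c par)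
    (hxn : (ch c par x).Nonempty) (hz : z ∈ ch c par c) (hzx : z ≠ x)
    (hzn : (ch c par z).Nonempty)
    (hm : 2 * (univ \ leaves c par).card + 2 ≤ p) :
    ∃ e : V → ℕ, (∀ v, v ≠ c → 1 ≤ e v ∧ e v ≤ p) ∧ Function.Injective (W c par e) := by
  classical
  set Lf := leaves c par with hLf
  set m := (univ \ Lf).card with hmdef
  set Inn : Finset V := (((univ \ Lf).erase c).erase x).erase z with hInn
  have memInn : ∀ v, v ∈ Inn ↔ v ≠ z ∧ v ≠ x ∧ v ≠ c ∧ v ∉ Lf := by
    intro v; simp [hInn]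
  have hxc : x ≠ c := (mem_ch.1 hx).1
  have hpx : par x = c := (mem_ch.1 hx).2
  have hzc : z ≠ c := (mem_ch.1 hz).1
  have hpz : par z = c := (mem_ch.1 hz).2
  have hcL : c ∉ Lf := by
    intro h
    exact (mem_leaves.1 h).1 rfl
  have hxL : x ∉ Lf := by
    intro h
    rw [hLf, mem_leaves] at h
    rw [h.2] at hxn
    exact not_nonempty_empty hxn
  have hzL : z ∉ Lf := by
    intro h
    rw [hLf, mem_leaves] at h
    rw [h.2] at hzn
    exact not_nonempty_empty hzn
  have hInnCard : Inn.card + 3 = m := by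
    have h1 : z ∈ ((univ \ Lf).erase c).erase x := by simp [hzx, hzc, hzL]
    have h2 : x ∈ (univ \ Lf).erase c := by simp [hxc, hxL]
    have h3 : c ∈ univ \ Lf := by simp [hcL]
    rw [hInn, card_erase_of_mem h1, card_erase_of_mem h2, card_erase_of_mem h3, ← hmdef]
    have h4 : 3 ≤ m := by
      have h5 : ({c, x, z} : Finset V).card = 3 := by
        rw [card_eq_three]
        exact ⟨c, x, z, hxc.symm, hzc.symm, hzx.symm, rfl⟩
      rw [← h5, hmdef]
      apply card_le_card
      intro v hv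
      simp only [mem_insert, mem_singleton] at hv
      rw [mem_sdiff]
      rcases hv with rfl | rfl | rfl
      · exact ⟨mem_univ _, hcL⟩
      · exact ⟨mem_univ _, hxL⟩
      · exact ⟨mem_univ _, hzL⟩
    omega
  -- the leaf child of c, if there is one
  obtain ⟨D, hDc, hDL, hD1, hDex⟩ : ∃ D : Finset V, D ⊆ ch c par c ∧ D ⊆ Lf ∧ D.card ≤ 1 ∧
      (D = ∅ → ∀ u ∈ ch c par c, u ∉ Lf) := by
    by_cases h : ∃ u ∈ ch c par c, u ∈ Lf
    · obtain ⟨u, hu, huL⟩ := h
      exact ⟨{u}, singleton_subset_iff.2 hu, singleton_subset_iff.2 huL, by simp,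
        fun h => absurd h (singleton_ne_empty u)⟩
    · push Not at h
      exact ⟨∅, empty_subset _, empty_subset _, by simp, fun _ => h⟩
  set M : Finset V := (univ \ Lf).filter (fun v => v ≠ c ∧ ch c par v ⊆ Lf) with hM
  have hMcard : ∀ v ∈ M, 3 ≤ (ch c par v).card := by
    intro v hv
    rw [hM, mem_filter, mem_sdiff] at hv
    apply hdeg v hv.2.1
    rw [nonempty_iff_ne_empty]
    intro h
    exact hv.1.2 (mem_leaves.2 ⟨hv.2.1, h⟩)
  have hM2 : ∀ v : V, ∃ fg : V × V, v ∈ M → fg.1 ∈ ch c par v ∧ fg.2 ∈ ch c par v ∧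
      fg.1 ≠ fg.2 := by
    intro v
    by_cases hv : v ∈ M
    · obtain ⟨a, ha, a', ha', hne⟩ := one_lt_card.1 (lt_of_lt_of_le (by norm_num) (hMcard v hv))
      exact ⟨(a, a'), fun _ => ⟨ha, ha', hne⟩⟩
    · exact ⟨(v, v), fun h => absurd h hv⟩
  choose fg hfg using hM2
  have hMf : ∀ v ∈ M, ∀ f ∈ ch c par v, f ∈ Lf ∧ f ∉ (∅ : Finset V) ∧ f ∉ D := by
    intro v hv f hf
    refine ⟨(mem_filter.1 hv).2.2 hf, notMem_empty _, ?_⟩
    intro hfD
    have h1 := (mem_ch.1 (hDc hfD)).2
    rw [(mem_ch.1 hf).2] at h1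
    exact (mem_filter.1 hv).2.1 h1
  obtain ⟨e0, he1, he2, -, he4, he5⟩ := exists_labels Lf p hp ∅ D M (fun v => (fg v).1)
    (fun v => (fg v).2) (empty_subset _) hDL (disjoint_empty_left _)
    (fun v hv => hMf v hv _ (hfg v hv).1) (fun v hv => hMf v hv _ (hfg v hv).2.1)
    (by
      intro u hu v hv huv
      have h1 := (mem_ch.1 (hfg u hu).1).2
      have h2 := (mem_ch.1 (hfg v hv).1).2
      simp only at huv
      rw [← h1, ← h2, huv])
    (by
      intro u hu v hv huv
      have h1 := (mem_ch.1 (hfg u hu).2.1).2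
      have h2 := (mem_ch.1 (hfg v hv).2.1).2
      simp only at huv
      rw [← h1, ← h2, huv])
    (by
      intro u hu v hv huv
      have h1 := (mem_ch.1 (hfg u hu).1).2
      have h2 := (mem_ch.1 (hfg v hv).2.1).2
      have h3 : u = v := by rw [← h1, ← h2, huv]
      subst h3
      exact (hfg u hu).2.2 huv)
  -- the greedy procedure
  have hdep' : ∀ v, ∀ u ∈ ch c par v, dep v < dep u := by
    intro v u hu
    have := hdep u (mem_ch.1 hu).1
    rw [(mem_ch.1 hu).2] at this
    omega
  have hLI : Disjoint Lf Inn := by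
    rw [disjoint_left]
    intro v hv hvI
    exact ((memInn v).1 hvI).2.2.2 hv
  have hInnch : ∀ v, v ≠ c → ∀ u ∈ ch c par v, u ∉ Lf → u ∈ Inn := by
    intro v hv u hu huL
    rw [memInn]
    refine ⟨?_, ?_, (mem_ch.1 hu).1, huL⟩
    · rintro rfl
      have h1 := (mem_ch.1 hu).2
      rw [hpz] at h1
      exact hv h1.symm
    · rintro rfl
      have h1 := (mem_ch.1 hu).2
      rw [hpx] at h1
      exact hv h1.symm
  have hMsum : ∀ v ∈ M, p ≤ ∑ u ∈ ch c par v, e0 u := by
    intro v hv
    have h2 := he5 v hv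
    obtain ⟨g1, g2, g3⟩ := hfg v hv
    have h3 : e0 (fg v).1 + e0 (fg v).2 ≤ ∑ u ∈ ch c par v, e0 u := by
      rw [← sum_pair g3]
      apply sum_le_sum_of_subset
      intro a ha
      rw [mem_insert, mem_singleton] at ha
      rcases ha with rfl | rfl
      · exact g1
      · exact g2
    omega
  have hN : ∀ v ∈ Inn, v ∉ (∅ : Finset V) → (∃ u ∈ ch c par v, u ∈ Inn ∧ u ∉ (∅ : Finset V)) ∨
      (ch c par v ⊆ Lf ∧ p ≤ ∑ u ∈ ch c par v, e0 u + 0) := by
    intro v hv _
    have hv' := (memInn v).1 hv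
    by_cases hall : ch c par v ⊆ Lf
    · right
      refine ⟨hall, ?_⟩
      rw [add_zero]
      exact hMsum v (mem_filter.2 ⟨mem_sdiff.2 ⟨mem_univ _, hv'.2.2.2⟩, hv'.2.2.1, hall⟩)
    · left
      obtain ⟨u, hu, huL⟩ := not_subset.1 hall
      exact ⟨u, hu, hInnch v hv'.2.2.1 u hu huL, notMem_empty _⟩
  obtain ⟨e1, ok⟩ := greedy (ch c par) dep hdep' Lf Inn ∅ ∅ hLI (empty_subset _)
    (fun _ => False) p 0 0 0 1 e0 (by simp) (by simp) (by simp) hN
    (by intro a L _; simp) (by simp) (by simp) (by simp) (by omega) (by omega) (by omega)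
  have hlow : ∀ v ∈ Inn, p ≤ e1 v + Inn.card := by
    intro v hv
    have h1 := ok.inv v hv (notMem_empty _) (p - e1 v) (by have := (ok.rng v hv).2.1; omega)
    unfold NN at h1
    have h2 : (Inn.filter (fun u => 2 * p < W1 (ch c par) e1 u + (p - e1 v))).card ≤ Inn.card :=
      card_filter_le _ _
    simp only [filter_false, card_empty] at h1
    omega
  have hle1 : ∀ v, v ≠ c → v ≠ x → v ≠ z → 1 ≤ e1 v ∧ e1 v ≤ p := by
    intro v hv hvx hvz
    by_cases hvL : v ∈ Lf
    · rw [ok.leaf v hvL]; exact he1 v hvL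
    · have := ok.rng v ((memInn v).2 ⟨hvz, hvx, hv, hvL⟩)
      exact ⟨this.1, this.2.1⟩
  -- the edge at z
  set Bc := ∑ u ∈ ((ch c par c).erase x).erase z, e1 u with hBc
  set Az := ∑ u ∈ ch c par z, e1 u with hAz
  set Ax := ∑ u ∈ ch c par x, e1 u with hAx
  have hAx1 : p ≤ Ax := by
    have h1 : x ∈ M := mem_filter.2 ⟨mem_sdiff.2 ⟨mem_univ _, hxL⟩, hxc, hxl⟩
    have h2 := hMsum x h1
    have h3 : Ax = ∑ u ∈ ch c par x, e0 u := sum_congr rfl (fun u hu => ok.leaf u (hxl hu))
    omega
  have hAz1 : p ≤ Az + Inn.card := by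
    by_cases hall : ch c par z ⊆ Lf
    · have h1 : z ∈ M := mem_filter.2 ⟨mem_sdiff.2 ⟨mem_univ _, hzL⟩, hzc, hall⟩
      have h2 := hMsum z h1
      have h3 : Az = ∑ u ∈ ch c par z, e0 u := sum_congr rfl (fun u hu => ok.leaf u (hall hu))
      omega
    · obtain ⟨u, hu, huL⟩ := not_subset.1 hall
      have h1 := hlow u (hInnch z hzc u hu huL)
      have h2 : e1 u ≤ Az := single_le_sum (fun _ _ => Nat.zero_le _) hu
      omega
  have hBc1 : p ≤ Bc := by
    rcases eq_empty_or_nonempty D with hD0 | ⟨f, hf⟩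
    · have hall := hDex hD0
      have h1 : 1 < (((ch c par c).erase x).erase z).card := by
        rw [card_erase_of_mem (mem_erase.2 ⟨hzx, hz⟩), card_erase_of_mem hx]
        omega
      obtain ⟨a, ha, a', ha', hne⟩ := one_lt_card.1 h1
      have hI : ∀ u ∈ ((ch c par c).erase x).erase z, u ∈ Inn := by
        intro u hu
        rw [mem_erase, mem_erase] at hu
        exact (memInn u).2 ⟨hu.1, hu.2.1, (mem_ch.1 hu.2.2).1, hall u hu.2.2⟩
      have h2 := hlow a (hI a ha)
      have h3 := hlow a' (hI a' ha')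
      have h4 : e1 a + e1 a' ≤ Bc := by
        rw [← sum_pair hne]
        apply sum_le_sum_of_subset
        intro b hb
        rw [mem_insert, mem_singleton] at hb
        rcases hb with rfl | rfl
        · exact ha
        · exact ha'
      omega
    · have h1 := he4 f hf
      have h2 : f ∈ ((ch c par c).erase x).erase z := by
        rw [mem_erase, mem_erase]
        refine ⟨?_, ?_, hDc hf⟩
        · rintro rfl; exact hzL (hDL hf)
        · rintro rfl; exact hxL (hDL hf)
      have h3 : e1 f ≤ Bc := single_le_sum (fun _ _ => Nat.zero_le _) h2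
      rw [ok.leaf f (hDL hf)] at h3
      omega
  obtain ⟨wz, hwz, hwzbad⟩ : ∃ w ∈ Ioc (p + 1 - m) p,
      w ∉ insert (Ax - Bc) (Inn.image (fun u => W1 (ch c par) e1 u - Az)) := by
    by_contra hcon
    push Not at hcon
    have h1 := card_le_card (fun w hw => hcon w hw :
      Ioc (p + 1 - m) p ⊆ insert (Ax - Bc) (Inn.image (fun u => W1 (ch c par) e1 u - Az)))
    have h2 : (Inn.image (fun u => W1 (ch c par) e1 u - Az)).card ≤ Inn.card := card_image_le
    have h3 := card_insert_le (Ax - Bc) (Inn.image (fun u => W1 (ch c par) e1 u - Az))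
    rw [Nat.card_Ioc] at h1
    omega
  rw [mem_Ioc] at hwz
  rw [mem_insert, not_or] at hwzbad
  have hzbad : ∀ u ∈ Inn, W1 (ch c par) e1 u ≠ Az + wz := by
    intro u hu h
    apply hwzbad.2
    rw [mem_image]
    exact ⟨u, hu, by rw [h]; omega⟩
  have hcx : Bc + wz ≠ Ax := by
    intro h
    apply hwzbad.1
    omega
  -- the edge at x
  obtain ⟨wx, hwx, hwxbad⟩ : ∃ w ∈ Ioc 0 p,
      w ∉ (insert (Az + wz) (Inn.image (W1 (ch c par) e1))).image (fun t => t - Ax) ∪
        (insert (Az + wz) (Inn.image (W1 (ch c par) e1))).image (fun t => t - (Bc + wz)) := by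
    by_contra hcon
    push Not at hcon
    have h1 := card_le_card (fun w hw => hcon w hw : Ioc 0 p ⊆ _)
    have h2 := card_union_le
      ((insert (Az + wz) (Inn.image (W1 (ch c par) e1))).image (fun t => t - Ax))
      ((insert (Az + wz) (Inn.image (W1 (ch c par) e1))).image (fun t => t - (Bc + wz)))
    have h3 : ((insert (Az + wz) (Inn.image (W1 (ch c par) e1))).image (fun t => t - Ax)).card ≤
      (insert (Az + wz) (Inn.image (W1 (ch c par) e1))).card := card_image_le
    have h4 : ((insert (Az + wz) (Inn.image (W1 (ch c par) e1))).image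
      (fun t => t - (Bc + wz))).card ≤
      (insert (Az + wz) (Inn.image (W1 (ch c par) e1))).card := card_image_le
    have h5 := card_insert_le (Az + wz) (Inn.image (W1 (ch c par) e1))
    have h6 : (Inn.image (W1 (ch c par) e1)).card ≤ Inn.card := card_image_le
    rw [Nat.card_Ioc] at h1
    omega
  rw [mem_Ioc] at hwx
  rw [mem_union, not_or, mem_image, mem_image] at hwxbad
  push Not at hwxbad
  have hx1 : Az + wz ≠ Ax + wx := by
    intro h
    exact hwxbad.1 _ (mem_insert_self _ _) (by rw [h]; omega)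
  have hx2 : ∀ u ∈ Inn, W1 (ch c par) e1 u ≠ Ax + wx := by
    intro u hu h
    exact hwxbad.1 _ (mem_insert_of_mem (mem_image_of_mem _ hu)) (by rw [h]; omega)
  have hc1 : Az + wz ≠ Bc + wz + wx := by
    intro h
    exact hwxbad.2 _ (mem_insert_self _ _) (by rw [h]; omega)
  have hc2 : ∀ u ∈ Inn, W1 (ch c par) e1 u ≠ Bc + wz + wx := by
    intro u hu h
    exact hwxbad.2 _ (mem_insert_of_mem (mem_image_of_mem _ hu)) (by rw [h]; omega)
  set e : V → ℕ := Function.update (Function.update e1 z wz) x wx with he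
  have hex : e x = wx := by simp [he]
  have hez : e z = wz := by
    rw [he, Function.update_of_ne hzx, Function.update_self]
  have hne : ∀ u, u ≠ x → u ≠ z → e u = e1 u := by
    intro u hu hu'
    rw [he, Function.update_of_ne hu, Function.update_of_ne hu']
  have hWc : W c par e c = Bc + wz + wx := by
    unfold W
    rw [if_pos rfl, ← sum_erase_add _ _ hx, hex, add_zero,
      ← sum_erase_add _ _ (mem_erase.2 ⟨hzx, hz⟩ : z ∈ (ch c par c).erase x), hez]
    congr 2
    exact sum_congr rfl (fun u hu => hne u (mem_erase.1 (mem_erase.1 hu).2).1 (mem_erase.1 hu).1)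
  have hchne : ∀ v, v ≠ c → ∀ u ∈ ch c par v, e u = e1 u := by
    intro v hv u hu
    apply hne
    · rintro rfl
      have h1 := (mem_ch.1 hu).2
      rw [hpx] at h1
      exact hv h1.symm
    · rintro rfl
      have h1 := (mem_ch.1 hu).2
      rw [hpz] at h1
      exact hv h1.symm
  have hWx : W c par e x = Ax + wx := by
    unfold W
    rw [if_neg hxc, hex]
    congr 1
    exact sum_congr rfl (hchne x hxc)
  have hWz : W c par e z = Az + wz := by
    unfold W
    rw [if_neg hzc, hez]
    congr 1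
    exact sum_congr rfl (hchne z hzc)
  have hWI : ∀ v ∈ Inn, W c par e v = W1 (ch c par) e1 v := by
    intro v hv
    have hv' := (memInn v).1 hv
    unfold W W1
    rw [if_neg hv'.2.2.1, hne v hv'.2.1 hv'.1]
    congr 1
    exact sum_congr rfl (hchne v hv'.2.2.1)
  have hcases : ∀ v, v ∉ Lf → v = c ∨ v = x ∨ v = z ∨ v ∈ Inn := by
    intro v hv
    by_cases h1 : v = c
    · exact Or.inl h1
    by_cases h2 : v = x
    · exact Or.inr (Or.inl h2)
    by_cases h3 : v = z
    · exact Or.inr (Or.inr (Or.inl h3))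
    exact Or.inr (Or.inr (Or.inr ((memInn v).2 ⟨h3, h2, h1, hv⟩)))
  refine ⟨e, ?_, ?_⟩
  · intro v hv
    by_cases hvx : v = x
    · subst hvx
      rw [hex]; omega
    by_cases hvz : v = z
    · subst hvz
      rw [hez]; omega
    · rw [hne v hvx hvz]; exact hle1 v hv hvx hvz
  · apply W_injective c par p e
    · intro f hf
      have hfx : f ≠ x := fun h => hxL (h ▸ hf)
      have hfz : f ≠ z := fun h => hzL (h ▸ hf)
      rw [hne f hfx hfz, ok.leaf f hf]
      exact he1 f hf
    · intro f hf f' hf' hff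
      have hfx : f ≠ x := fun h => hxL (h ▸ hf)
      have hfx' : f' ≠ x := fun h => hxL (h ▸ hf')
      have hfz : f ≠ z := fun h => hzL (h ▸ hf)
      have hfz' : f' ≠ z := fun h => hzL (h ▸ hf')
      rw [hne f hfx hfz, hne f' hfx' hfz', ok.leaf f hf, ok.leaf f' hf'] at hff
      exact he2 hf hf' hff
    · intro v hv
      rcases hcases v hv with rfl | rfl | rfl | h
      · rw [hWc]; omega
      · rw [hWx]; omega
      · rw [hWz]; omega
      · rw [hWI v h]; exact (ok.rng v h).2.2
    · intro u v hu hv huv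
      rcases hcases u hu with rfl | rfl | rfl | h1 <;>
        rcases hcases v hv with rfl | rfl | rfl | h2
      · rfl
      · rw [hWc, hWx] at huv; omega
      · rw [hWc, hWz] at huv; exact absurd huv.symm hc1
      · rw [hWc, hWI v h2] at huv; exact absurd huv.symm (hc2 v h2)
      · rw [hWc, hWx] at huv; omega
      · rfl
      · rw [hWx, hWz] at huv; exact absurd huv.symm hx1
      · rw [hWx, hWI v h2] at huv; exact absurd huv.symm (hx2 v h2)
      · rw [hWc, hWz] at huv; exact absurd huv hc1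
      · rw [hWx, hWz] at huv; exact absurd huv hx1
      · rfl
      · rw [hWz, hWI v h2] at huv; exact absurd huv.symm (hzbad v h2)
      · rw [hWc, hWI u h1] at huv; exact absurd huv (hc2 u h1)
      · rw [hWx, hWI u h1] at huv; exact absurd huv (hx2 u h1)
      · rw [hWz, hWI u h1] at huv; exact absurd huv (hzbad u h1)
      · rw [hWI u h1, hWI v h2] at huv; exact ok.inj h1 h2 huv

end Pool.Agent.Helper999.Irr
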