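import Mathlib

/-!
Definitions for the irregularity strength of trees (MP_033e98_co).
-/

namespace Pool.Agent.Helper999.Irr

open Finset

/-- The weighted degree of the vertex `v`: the sum of the weights of the edges at `v`. -/
noncomputable def wdeg {V : Type} [Fintype V] (G : SimpleGraph V) (w : Sym2 V → ℕ) (v : V) : ℕ :=
  open Classical in ∑ u : V, if G.Adj v u then w s(v, u) else 0

/-- `w` is an irregular weighting of `G`: positive weights on the edges, and pairwise distinct
weighted degrees. -/
def IsIrregular {V : Type} [Fintype V] (G : SimpleGraph V) (w : Sym2 V → ℕ) : Prop :=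
  (∀ e ∈ G.edgeSet, 1 ≤ w e) ∧ Function.Injective (wdeg G w)

/-- The irregularity strength: the least possible maximal weight of an irregular weighting. -/
noncomputable def strength {V : Type} [Fintype V] (G : SimpleGraph V) : ℕ :=
  sInf {k : ℕ | ∃ w : Sym2 V → ℕ, IsIrregular G w ∧ ∀ e ∈ G.edgeSet, w e ≤ k}

/-- The number of leaves (vertices with exactly one neighbour). -/
noncomputable def leafCount {V : Type} (G : SimpleGraph V) : ℕ :=
  {v : V | (G.neighborSet v).ncard = 1}.ncard

/-- `Good p N`: every tree with exactly `p` leaves and at most `N` vertices has irregularity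
strength `p`. -/
def Good (p N : ℕ) : Prop :=
  ∀ k ≤ N, ∀ T : SimpleGraph (Fin k), T.IsTree → leafCount T = p → strength T = p

end Pool.Agent.Helper999.Irr
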