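import Mathlib

namespace Pool.Agent.Helper999.Irr

open Finset

theorem exists_rooting {V : Type} [Fintype V] (T : SimpleGraph V) (hT : T.IsTree) (c : V) :
    ∃ (par : V → V) (dep : V → ℕ),
      (∀ v, v ≠ c → T.Adj v (par v) ∧ dep v = dep (par v) + 1) ∧
      (∀ u v, T.Adj u v → (u ≠ c ∧ par u = v) ∨ (v ≠ c ∧ par v = u)) := by
  classical
  have hex : ∀ v, ∃ p : T.Walk c v, p.IsPath ∧ p.length = T.dist c v := fun v =>
    hT.connected.exists_path_of_dist c v
  choose P hP hPl using hex
  have key : ∀ u v, T.Adj u v → T.dist c v = T.dist c u + 1 → v ≠ c ∧ (P v).penultimate = u := by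
    intro u v huv hd
    refine ⟨?_, ?_⟩
    · rintro rfl
      simp at hd
    · by_cases hu : u ∈ (P v).support
      · rw [hT.isAcyclic.path_concat (hP u) (hP v) huv hu]
        simp
      · exfalso
        have hv := hT.isAcyclic.mem_support_of_ne_mem_support_of_adj_of_isPath (hP u) (hP v) huv hu
        have h2 := hT.isAcyclic.path_concat (hP v) (hP u) huv.symm hv
        have h3 := congrArg SimpleGraph.Walk.length h2
        rw [SimpleGraph.Walk.length_concat, hPl, hPl] at h3
        omega
  refine ⟨fun v => (P v).penultimate, fun v => T.dist c v, ?_, ?_⟩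
  · intro v hv
    have hnil : ¬ (P v).Nil := by
      intro h
      exact hv (h.eq).symm
    have hadj : T.Adj (P v).penultimate v := (P v).adj_penultimate hnil
    refine ⟨hadj.symm, ?_⟩
    rcases hT.dist_eq_dist_add_one_of_adj c hadj.symm with h | h
    · exact h
    · exfalso
      obtain ⟨h1, h2⟩ := key v (P v).penultimate hadj.symm h
      have h3 : T.dist c (P v).penultimate ≤ (P v).dropLast.length := SimpleGraph.dist_le _
      have h4 : (P v).dropLast.length ≤ (P v).length := by
        simp [SimpleGraph.Walk.dropLast]
      rw [hPl] at h4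
      omega
  · intro u v huv
    rcases hT.dist_eq_dist_add_one_of_adj c huv with h | h
    · exact Or.inl (key v u huv.symm h)
    · exact Or.inr (key u v huv h)

end Pool.Agent.Helper999.Irr
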