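import Pool.Agent.Helper999.Irr.Defs

namespace Pool.Agent.Helper999.Irr

open Finset


/-- the neighbours of `v` as a finset -/
def nb {V : Type} [Fintype V] [DecidableEq V] (c : V) (par : V → V) (v : V) : Finset V :=
  (univ.filter (fun u => u ≠ c ∧ par u = v)) ∪ (if v = c then ∅ else {par v})

theorem adj_iff_nb {V : Type} [Fintype V] [DecidableEq V] (T : SimpleGraph V) (c : V)
    (par : V → V) (dep : V → ℕ)
    (h1 : ∀ v, v ≠ c → T.Adj v (par v) ∧ dep v = dep (par v) + 1)
    (h2 : ∀ u v, T.Adj u v → (u ≠ c ∧ par u = v) ∨ (v ≠ c ∧ par v = u)) (v u : V) :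
    T.Adj v u ↔ u ∈ nb c par v := by
  unfold nb
  rw [Finset.mem_union, Finset.mem_filter]
  constructor
  · intro h
    rcases h2 v u h with ⟨h3, h4⟩ | ⟨h3, h4⟩
    · right
      rw [if_neg h3, Finset.mem_singleton, h4]
    · left
      exact ⟨Finset.mem_univ _, h3, h4⟩
  · rintro (⟨-, h3, h4⟩ | h)
    · have := (h1 u h3).1
      rw [h4] at this
      exact this.symm
    · by_cases hv : v = c
      · rw [if_pos hv] at h; exact absurd h (Finset.notMem_empty _)
      · rw [if_neg hv, Finset.mem_singleton] at h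
        rw [h]; exact (h1 v hv).1

theorem nb_disj {V : Type} [Fintype V] [DecidableEq V] (T : SimpleGraph V) (c : V)
    (par : V → V) (dep : V → ℕ)
    (h1 : ∀ v, v ≠ c → T.Adj v (par v) ∧ dep v = dep (par v) + 1) (v : V) :
    Disjoint (univ.filter (fun u => u ≠ c ∧ par u = v)) (if v = c then ∅ else {par v}) := by
  by_cases hv : v = c
  · rw [if_pos hv]; exact Finset.disjoint_empty_right _
  · rw [if_neg hv, Finset.disjoint_singleton_right, Finset.mem_filter]
    rintro ⟨-, h3, h4⟩
    have e1 := (h1 v hv).2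
    have e2 := (h1 (par v) h3).2
    rw [h4] at e2
    omega

theorem ncard_neighborSet {V : Type} [Fintype V] [DecidableEq V] (T : SimpleGraph V) (c : V)
    (par : V → V) (dep : V → ℕ)
    (h1 : ∀ v, v ≠ c → T.Adj v (par v) ∧ dep v = dep (par v) + 1)
    (h2 : ∀ u v, T.Adj u v → (u ≠ c ∧ par u = v) ∨ (v ≠ c ∧ par v = u)) (v : V) :
    (T.neighborSet v).ncard =
      (univ.filter (fun u => u ≠ c ∧ par u = v)).card + if v = c then 0 else 1 := by
  have h3 : T.neighborSet v = ↑(nb c par v) := by
    ext u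
    rw [SimpleGraph.mem_neighborSet, adj_iff_nb T c par dep h1 h2, Finset.mem_coe]
  rw [h3, Set.ncard_coe_finset]
  unfold nb
  rw [Finset.card_union_of_disjoint (nb_disj T c par dep h1 v)]
  congr 1
  split_ifs <;> simp

theorem strength_eq {V : Type} [Fintype V] [DecidableEq V] (T : SimpleGraph V) (c : V)
    (par : V → V) (dep : V → ℕ)
    (h1 : ∀ v, v ≠ c → T.Adj v (par v) ∧ dep v = dep (par v) + 1)
    (h2 : ∀ u v, T.Adj u v → (u ≠ c ∧ par u = v) ∨ (v ≠ c ∧ par v = u))
    (p : ℕ) (hp : leafCount T = p) (e : V → ℕ) (he : ∀ v, v ≠ c → 1 ≤ e v ∧ e v ≤ p)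
    (hW : Function.Injective (fun v =>
      (∑ u ∈ univ.filter (fun u => u ≠ c ∧ par u = v), e u) + if v = c then 0 else e v)) :
    strength T = p := by
  classical
  set w : Sym2 V → ℕ := fun z => ∑ x : V, if x ≠ c ∧ z = s(x, par x) then e x else 0 with hw
  have hwe : ∀ v, v ≠ c → w s(v, par v) = e v := by
    intro v hv
    simp only [hw]
    rw [Finset.sum_eq_single v]
    · rw [if_pos ⟨hv, rfl⟩]
    · intro x _ hxv
      rw [if_neg]
      rintro ⟨hx, hs⟩
      rw [Sym2.eq_iff] at hs
      rcases hs with ⟨h3, -⟩ | ⟨h3, h4⟩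
      · exact hxv h3.symm
      · have e1 := (h1 v hv).2
        have e2 := (h1 x hx).2
        rw [← h3] at e2
        rw [h4] at e1
        omega
    · intro h; exact absurd (Finset.mem_univ _) h
  have hdeg : ∀ (w' : Sym2 V → ℕ) (v : V), wdeg T w' v = ∑ u ∈ nb c par v, w' s(v, u) := by
    intro w' v
    unfold wdeg
    rw [← Finset.sum_filter]
    apply Finset.sum_congr
    · ext u
      rw [Finset.mem_filter, adj_iff_nb T c par dep h1 h2]
      simp
    · intros; rfl
  have hwd : wdeg T w = fun v =>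
      (∑ u ∈ univ.filter (fun u => u ≠ c ∧ par u = v), e u) + if v = c then 0 else e v := by
    funext v
    rw [hdeg]
    unfold nb
    rw [Finset.sum_union (nb_disj T c par dep h1 v)]
    congr 1
    · apply Finset.sum_congr rfl
      intro u hu
      rw [Finset.mem_filter] at hu
      have h3 := hwe u hu.2.1
      rw [hu.2.2] at h3
      rw [Sym2.eq_swap]; exact h3
    · by_cases hv : v = c
      · simp [hv]
      · rw [if_neg hv, if_neg hv, Finset.sum_singleton]
        exact hwe v hv
  have hedge : ∀ z ∈ T.edgeSet, ∃ x, x ≠ c ∧ z = s(x, par x) := by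
    intro z
    induction z using Sym2.ind with
    | _ a b =>
      intro hz
      rw [SimpleGraph.mem_edgeSet] at hz
      rcases h2 a b hz with ⟨h3, h4⟩ | ⟨h3, h4⟩
      · exact ⟨a, h3, by rw [h4]⟩
      · exact ⟨b, h3, by rw [h4]; exact Sym2.eq_swap⟩
  have hmem : p ∈ {k : ℕ | ∃ w : Sym2 V → ℕ, IsIrregular T w ∧ ∀ e ∈ T.edgeSet, w e ≤ k} := by
    refine ⟨w, ⟨?_, ?_⟩, ?_⟩
    · intro z hz
      obtain ⟨x, hx, rfl⟩ := hedge z hz
      rw [hwe x hx]; exact (he x hx).1
    · rw [hwd]; exact hW
    · intro z hz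
      obtain ⟨x, hx, rfl⟩ := hedge z hz
      rw [hwe x hx]; exact (he x hx).2
  apply le_antisymm
  · exact Nat.sInf_le hmem
  · obtain ⟨w', ⟨hw1, hw2⟩, hw3⟩ := Nat.sInf_mem ⟨p, hmem⟩
    change ∀ e ∈ T.edgeSet, w' e ≤ strength T at hw3
    rw [← hp]
    unfold leafCount
    have hfin : ({v : V | (T.neighborSet v).ncard = 1}).Finite := Set.toFinite _
    rw [Set.ncard_eq_toFinset_card _ hfin]
    have h5 : hfin.toFinset.card ≤ (Finset.Icc 1 (strength T)).card := by
      apply Finset.card_le_card_of_injOn (wdeg T w')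
      · intro v hv
        rw [Finset.mem_coe, Set.Finite.mem_toFinset] at hv
        have hv' : (T.neighborSet v).ncard = 1 := hv
        obtain ⟨u, hu⟩ := Set.ncard_eq_one.1 hv'
        have hadj : T.Adj v u := by
          have : u ∈ T.neighborSet v := by rw [hu]; exact Set.mem_singleton u
          exact this
        have hnb : nb c par v = {u} := by
          ext x
          rw [← adj_iff_nb T c par dep h1 h2, Finset.mem_singleton]
          have : x ∈ T.neighborSet v ↔ x = u := by rw [hu]; exact Set.mem_singleton_iff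
          exact this
        rw [hdeg, hnb, Finset.sum_singleton, Finset.mem_coe, Finset.mem_Icc]
        have hmemE : s(v, u) ∈ T.edgeSet := hadj
        exact ⟨hw1 _ hmemE, hw3 _ hmemE⟩
      · exact fun a _ b _ h => hw2 h
    rwa [Nat.card_Icc, Nat.add_sub_cancel] at h5

end Pool.Agent.Helper999.Irr
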