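import Pool.Agent.Helper999.Irr.Tree
import Pool.Agent.Helper999.Irr.Rooting
import Pool.Agent.Helper999.Irr.Strength

/-!
Degrees and leaves in a rooted tree.
-/

namespace Pool.Agent.Helper999.Irr

open Finset

/-- a rooting of `T` at `c` -/
structure Rooted {V : Type} (T : SimpleGraph V) (c : V) (par : V → V) (dep : V → ℕ) : Prop where
  h1 : ∀ v, v ≠ c → T.Adj v (par v) ∧ dep v = dep (par v) + 1
  h2 : ∀ u v, T.Adj u v → (u ≠ c ∧ par u = v) ∨ (v ≠ c ∧ par v = u)

theorem exists_rooted {V : Type} [Fintype V] (T : SimpleGraph V) (hT : T.IsTree) (c : V) :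
    ∃ (par : V → V) (dep : V → ℕ), Rooted T c par dep := by
  obtain ⟨par, dep, h1, h2⟩ := exists_rooting T hT c
  exact ⟨par, dep, h1, h2⟩

/-- the degree -/
noncomputable def dg {V : Type} (T : SimpleGraph V) (v : V) : ℕ := (T.neighborSet v).ncard

lemma dg_eq {V : Type} [Fintype V] [DecidableEq V] {T : SimpleGraph V} {c : V}
    {par : V → V} {dep : V → ℕ} (h : Rooted T c par dep) (v : V) :
    dg T v = (ch c par v).card + if v = c then 0 else 1 :=
  ncard_neighborSet T c par dep h.h1 h.h2 v

lemma dg_root {V : Type} [Fintype V] [DecidableEq V] {T : SimpleGraph V} {c : V}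
    {par : V → V} {dep : V → ℕ} (h : Rooted T c par dep) :
    dg T c = (ch c par c).card := by
  rw [dg_eq h, if_pos rfl, add_zero]

lemma dg_ne {V : Type} [Fintype V] [DecidableEq V] {T : SimpleGraph V} {c : V}
    {par : V → V} {dep : V → ℕ} (h : Rooted T c par dep) {v : V} (hv : v ≠ c) :
    dg T v = (ch c par v).card + 1 := by
  rw [dg_eq h, if_neg hv]

lemma mem_leaves_iff {V : Type} [Fintype V] [DecidableEq V] {T : SimpleGraph V} {c : V}
    {par : V → V} {dep : V → ℕ} (h : Rooted T c par dep) (hc : dg T c ≠ 1) (v : V) :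
    v ∈ leaves c par ↔ dg T v = 1 := by
  rw [mem_leaves]
  by_cases hv : v = c
  · subst hv
    simp [hc]
  · rw [dg_ne h hv, ← card_eq_zero]
    simp [hv]

lemma leaves_eq {V : Type} [Fintype V] [DecidableEq V] {T : SimpleGraph V} {c : V}
    {par : V → V} {dep : V → ℕ} (h : Rooted T c par dep) (hc : dg T c ≠ 1) :
    leaves c par = univ.filter (fun v => dg T v = 1) := by
  ext v
  rw [mem_leaves_iff h hc, mem_filter]
  simp

lemma leafCount_eq {V : Type} [Fintype V] [DecidableEq V] (T : SimpleGraph V) :
    leafCount T = (univ.filter (fun v => dg T v = 1)).card := by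
  unfold leafCount
  rw [← Set.ncard_coe_finset]
  congr 1
  ext v
  simp [dg]

lemma leaves_card {V : Type} [Fintype V] [DecidableEq V] {T : SimpleGraph V} {c : V}
    {par : V → V} {dep : V → ℕ} (h : Rooted T c par dep) (hc : dg T c ≠ 1) :
    (leaves c par).card = leafCount T := by
  rw [leaves_eq h hc, leafCount_eq]

/-- a parent is never a leaf if the root is not one -/
lemma par_inner {V : Type} [Fintype V] [DecidableEq V] {T : SimpleGraph V} {c : V}
    {par : V → V} {dep : V → ℕ} (h : Rooted T c par dep) (hc : dg T c ≠ 1) {v : V} (hv : v ≠ c) :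
    dg T (par v) ≠ 1 := by
  by_cases h1 : par v = c
  · rw [h1]; exact hc
  · rw [dg_ne h h1]
    have h2 : v ∈ ch c par (par v) := mem_ch.2 ⟨hv, rfl⟩
    have := card_pos.2 ⟨v, h2⟩
    omega

/-- the handshake lemma -/
lemma sum_ch {V : Type} [Fintype V] [DecidableEq V] (c : V) (par : V → V) :
    ∑ v : V, (ch c par v).card + 1 = Fintype.card V := by
  have h1 : (univ.filter (fun u : V => u ≠ c)).card = ∑ v : V, (ch c par v).card := by
    rw [card_eq_sum_card_fiberwise (f := par) (t := univ) (fun _ _ => mem_univ _)]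
    refine sum_congr rfl (fun v _ => ?_)
    congr 1
    ext u
    simp [ch]
  rw [← h1, filter_ne', card_erase_of_mem (mem_univ c)]
  have : 0 < (univ : Finset V).card := card_pos.2 ⟨c, mem_univ c⟩
  have h3 : (univ : Finset V).card = Fintype.card V := card_univ
  omega

lemma handshake {V : Type} [Fintype V] [DecidableEq V] {T : SimpleGraph V} {c : V}
    {par : V → V} {dep : V → ℕ} (h : Rooted T c par dep) :
    ∑ v : V, dg T v + 2 = 2 * Fintype.card V := by
  have h1 : ∀ v : V, dg T v + (if v = c then 1 else 0) = (ch c par v).card + 1 := by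
    intro v
    rw [dg_eq h]
    split_ifs <;> omega
  have h2 : ∑ v : V, (dg T v + (if v = c then 1 else 0)) = ∑ v : V, ((ch c par v).card + 1) :=
    sum_congr rfl (fun v _ => h1 v)
  rw [sum_add_distrib, sum_add_distrib, sum_ite_eq' univ c, if_pos (mem_univ c)] at h2
  have h3 := sum_ch c par
  simp only [sum_const, smul_eq_mul, mul_one, card_univ] at h2
  omega

end Pool.Agent.Helper999.Irr
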