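import Pool.Agent.Helper999.Irr.Tree

/-!
Stars and double stars.
-/

namespace Pool.Agent.Helper999.Irr

open Finset

lemma simple_labels {V : Type} [DecidableEq V] (Lf : Finset V) (p : ℕ) (hp : Lf.card = p) (f : V)
    (hf : f ∈ Lf) :
    ∃ e : V → ℕ, (∀ f ∈ Lf, 1 ≤ e f ∧ e f ≤ p) ∧ Set.InjOn e Lf ∧ e f = p := by
  obtain ⟨e, h1, h2, -, h4, -⟩ := exists_labels Lf p hp ∅ {f} ∅ id id (empty_subset _)
    (singleton_subset_iff.2 hf) (disjoint_empty_left _) (by simp) (by simp) (by simp) (by simp)
    (by simp)
  refine ⟨e, h1, h2, ?_⟩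
  have := h4 f (mem_singleton_self f)
  rw [card_singleton] at this
  have := (h1 f hf).2
  omega

theorem star {V : Type} [Fintype V] [DecidableEq V] (c : V) (par : V → V) (dep : V → ℕ)
    (hdep : ∀ v, v ≠ c → dep v = dep (par v) + 1) (p : ℕ) (hp : (leaves c par).card = p)
    (h2 : 2 ≤ (ch c par c).card) (hall : ∀ v, v ≠ c → v ∈ leaves c par) :
    ∃ e : V → ℕ, (∀ v, v ≠ c → 1 ≤ e v ∧ e v ≤ p) ∧ Function.Injective (W c par e) := by
  classical
  obtain ⟨f, hf, f', hf', hne⟩ := one_lt_card.1 h2
  obtain ⟨e, h1, hinj, hfp⟩ := simple_labels (leaves c par) p hp f (hall f (mem_ch.1 hf).1)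
  have hcL : c ∉ leaves c par := fun h => (mem_leaves.1 h).1 rfl
  have honly : ∀ v, v ∉ leaves c par → v = c := by
    intro v hv
    by_contra hvc
    exact hv (hall v hvc)
  refine ⟨e, fun v hv => h1 v (hall v hv), ?_⟩
  apply W_injective c par p e h1 hinj
  · intro v hv
    rw [honly v hv]
    unfold W
    rw [if_pos rfl]
    have h3 : e f + e f' ≤ ∑ u ∈ ch c par c, e u := by
      rw [← sum_pair hne]
      apply sum_le_sum_of_subset
      intro a ha
      rw [mem_insert, mem_singleton] at ha
      rcases ha with rfl | rfl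
      · exact hf
      · exact hf'
    have := (h1 f' (hall f' (mem_ch.1 hf').1)).1
    omega
  · intro u v hu hv _
    rw [honly u hu, honly v hv]

theorem double_star {V : Type} [Fintype V] [DecidableEq V] (c : V) (par : V → V) (dep : V → ℕ)
    (hdep : ∀ v, v ≠ c → dep v = dep (par v) + 1) (p : ℕ) (hp : (leaves c par).card = p)
    (h2 : 2 ≤ (ch c par c).card) (x : V) (hx : x ∈ ch c par c) (hxn : (ch c par x).Nonempty)
    (hall : ∀ v, v ≠ c → v ≠ x → v ∈ leaves c par) :
    ∃ e : V → ℕ, (∀ v, v ≠ c → 1 ≤ e v ∧ e v ≤ p) ∧ Function.Injective (W c par e) := by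
  classical
  have hxc : x ≠ c := (mem_ch.1 hx).1
  have hxL : x ∉ leaves c par := by
    intro h
    rw [mem_leaves] at h
    rw [h.2] at hxn
    exact not_nonempty_empty hxn
  obtain ⟨f, hf⟩ : ((ch c par c).erase x).Nonempty := by
    rw [← card_pos, card_erase_of_mem hx]; omega
  obtain ⟨f', hf'⟩ := hxn
  have hfx : f ≠ x := (mem_erase.1 hf).1
  have hfc : f ≠ c := (mem_ch.1 (mem_erase.1 hf).2).1
  have hfL : f ∈ leaves c par := hall f hfc hfx
  have hf'c : f' ≠ c := (mem_ch.1 hf').1
  have hf'x : f' ≠ x := by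
    rintro rfl
    have := hdep f' hf'c
    rw [(mem_ch.1 hf').2] at this
    omega
  have hf'L : f' ∈ leaves c par := hall f' hf'c hf'x
  have hff : f ≠ f' := by
    rintro rfl
    have h3 := (mem_ch.1 hf').2
    rw [(mem_ch.1 (mem_erase.1 hf).2).2] at h3
    exact hxc h3.symm
  -- labels with different sums at c and x
  obtain ⟨e, h1, hinj, hsum⟩ : ∃ e : V → ℕ, (∀ f ∈ leaves c par, 1 ≤ e f ∧ e f ≤ p) ∧
      Set.InjOn e (leaves c par) ∧ ∑ u ∈ (ch c par c).erase x, e u ≠ ∑ u ∈ ch c par x, e u := by
    obtain ⟨e, h1, hinj, -⟩ := simple_labels (leaves c par) p hp f hfL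
    by_cases hs : ∑ u ∈ (ch c par c).erase x, e u = ∑ u ∈ ch c par x, e u
    · refine ⟨fun u => e (Equiv.swap f f' u), ?_, ?_, ?_⟩
      · intro u hu
        rcases eq_or_ne u f with rfl | hu1
        · simp only [Equiv.swap_apply_left]; exact h1 _ hf'L
        rcases eq_or_ne u f' with rfl | hu2
        · simp only [Equiv.swap_apply_right]; exact h1 _ hfL
        simp only [Equiv.swap_apply_of_ne_of_ne hu1 hu2]
        exact h1 _ hu
      · intro u hu v hv huv
        have key : ∀ u ∈ leaves c par, Equiv.swap f f' u ∈ leaves c par := by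
          intro u hu
          rcases eq_or_ne u f with rfl | hu1
          · rw [Equiv.swap_apply_left]; exact hf'L
          rcases eq_or_ne u f' with rfl | hu2
          · rw [Equiv.swap_apply_right]; exact hfL
          rw [Equiv.swap_apply_of_ne_of_ne hu1 hu2]
          exact hu
        exact (Equiv.swap f f').injective (hinj (key u hu) (key v hv) huv)
      · have hf'1 : f' ∉ (ch c par c).erase x := by
          intro h
          have h3 := (mem_ch.1 hf').2
          rw [(mem_ch.1 (mem_erase.1 h).2).2] at h3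
          exact hxc h3.symm
        have hf2 : f ∉ ch c par x := by
          intro h
          have h3 := (mem_ch.1 h).2
          rw [(mem_ch.1 (mem_erase.1 hf).2).2] at h3
          exact hxc h3.symm
        rw [← add_sum_erase _ _ hf, ← add_sum_erase _ _ hf'] at hs ⊢
        have e1 : ∑ u ∈ ((ch c par c).erase x).erase f, e (Equiv.swap f f' u) =
            ∑ u ∈ ((ch c par c).erase x).erase f, e u := by
          refine sum_congr rfl (fun u hu => ?_)
          have hu2 : u ≠ f' := by
            rintro rfl
            exact hf'1 (mem_erase.1 hu).2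
          rw [Equiv.swap_apply_of_ne_of_ne (mem_erase.1 hu).1 hu2]
        have e2 : ∑ u ∈ (ch c par x).erase f', e (Equiv.swap f f' u) =
            ∑ u ∈ (ch c par x).erase f', e u := by
          refine sum_congr rfl (fun u hu => ?_)
          have hu2 : u ≠ f := by
            rintro rfl
            exact hf2 (mem_erase.1 hu).2
          rw [Equiv.swap_apply_of_ne_of_ne hu2 (mem_erase.1 hu).1]
        rw [e1, e2, Equiv.swap_apply_left, Equiv.swap_apply_right]
        have hd : e f ≠ e f' := fun h => hff (hinj hfL hf'L h)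
        omega
    · exact ⟨e, h1, hinj, hs⟩
  have hp1 : 1 ≤ p := (h1 f hfL).1.trans (h1 f hfL).2
  have hne : ∀ u, u ≠ x → Function.update e x p u = e u := fun u hu => Function.update_of_ne hu _ _
  have hWc : W c par (Function.update e x p) c = ∑ u ∈ (ch c par c).erase x, e u + p := by
    unfold W
    rw [if_pos rfl, ← sum_erase_add _ _ hx, Function.update_self, add_zero]
    congr 1
    exact sum_congr rfl (fun u hu => hne u (mem_erase.1 hu).1)
  have hWx : W c par (Function.update e x p) x = ∑ u ∈ ch c par x, e u + p := by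
    unfold W
    rw [if_neg hxc, Function.update_self]
    congr 1
    refine sum_congr rfl (fun u hu => hne u ?_)
    rintro rfl
    have := hdep u hxc
    rw [(mem_ch.1 hu).2] at this
    omega
  have hcases : ∀ v, v ∉ leaves c par → v = c ∨ v = x := by
    intro v hv
    by_contra hcon
    push Not at hcon
    exact hv (hall v hcon.1 hcon.2)
  have hpos1 : 1 ≤ ∑ u ∈ (ch c par c).erase x, e u :=
    (h1 f hfL).1.trans (single_le_sum (fun _ _ => Nat.zero_le _) hf)
  have hpos2 : 1 ≤ ∑ u ∈ ch c par x, e u :=
    (h1 f' hf'L).1.trans (single_le_sum (fun _ _ => Nat.zero_le _) hf')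
  refine ⟨Function.update e x p, ?_, ?_⟩
  · intro v hv
    by_cases hvx : v = x
    · subst hvx
      rw [Function.update_self]; omega
    · rw [hne v hvx]; exact h1 v (hall v hv hvx)
  · apply W_injective c par p
    · intro g hg
      rw [hne g (fun h => hxL (h ▸ hg))]
      exact h1 g hg
    · intro g hg g' hg' hgg
      rw [hne g (fun h => hxL (h ▸ hg)), hne g' (fun h => hxL (h ▸ hg'))] at hgg
      exact hinj hg hg' hgg
    · intro v hv
      rcases hcases v hv with rfl | rfl
      · rw [hWc]; omega
      · rw [hWx]; omega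
    · intro u v hu hv huv
      rcases hcases u hu with rfl | rfl <;> rcases hcases v hv with rfl | rfl
      · rfl
      · rw [hWc, hWx] at huv; exact absurd (Nat.add_right_cancel huv) hsum
      · rw [hWc, hWx] at huv; exact absurd (Nat.add_right_cancel huv).symm hsum
      · rfl

end Pool.Agent.Helper999.Irr
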