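import Pool.Agent.Helper999.Irr.Pick
import Pool.Agent.Helper999.Irr.CaseA
import Pool.Agent.Helper999.Irr.CaseB
import Pool.Agent.Helper999.Irr.Small

/-!
Every tree with `p` leaves and not too many inner vertices has irregularity strength `p`.
-/

namespace Pool.Agent.Helper999.Irr

open Finset

lemma finish_strength {V : Type} [Fintype V] [DecidableEq V] {T : SimpleGraph V} {c : V}
    {par : V → V} {dep : V → ℕ} (h : Rooted T c par dep) (p : ℕ) (hp : leafCount T = p)
    (he : ∃ e : V → ℕ, (∀ v, v ≠ c → 1 ≤ e v ∧ e v ≤ p) ∧ Function.Injective (W c par e)) :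
    strength T = p := by
  obtain ⟨e, he, hW⟩ := he
  exact strength_eq T c par dep h.h1 h.h2 p hp e he hW

theorem strength_of_tree {V : Type} [Fintype V] [DecidableEq V] (T : SimpleGraph V)
    (hT : T.IsTree) (p b : ℕ) (hb : 1 ≤ b) (hp : leafCount T = p)
    (hm : Fintype.card V + 16 * b + 2 * (p / b) + 20 ≤ 2 * p) : strength T = p := by
  classical
  obtain ⟨m, hmdef⟩ : ∃ m, m = (univ.filter (fun v => dg T v ≠ 1)).card := ⟨_, rfl⟩
  have hcard : p + m = Fintype.card V := by
    rw [← hp, leafCount_eq, hmdef, card_filter_add_card_filter_not, card_univ]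
  have hmleaves : ∀ (c : V) (par : V → V) (dep : V → ℕ), Rooted T c par dep → dg T c ≠ 1 →
      (univ \ leaves c par).card = m := by
    intro c par dep h hc
    rw [hmdef, leaves_eq h hc]
    congr 1
    ext v
    simp
  -- a vertex of degree at least four
  have hne : Nonempty V := hT.connected.nonempty
  obtain ⟨r0⟩ := hne
  obtain ⟨par0, dep0, h0⟩ := exists_rooted T hT r0
  have hhs := handshake h0
  have hsplit : ∑ v : V, dg T v =
      ∑ v ∈ univ.filter (fun v => dg T v = 1), dg T v +
      ∑ v ∈ univ.filter (fun v => dg T v ≠ 1), dg T v := by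
    rw [sum_filter_add_sum_filter_not]
  have hleaf : ∑ v ∈ univ.filter (fun v => dg T v = 1), dg T v = p := by
    rw [sum_congr rfl (fun v hv => (mem_filter.1 hv).2), sum_const, smul_eq_mul, mul_one,
      ← leafCount_eq, hp]
  obtain ⟨g, hg⟩ : ∃ g, 4 ≤ dg T g := by
    by_contra hcon
    push Not at hcon
    have h2 : ∑ v ∈ univ.filter (fun v => dg T v ≠ 1), dg T v ≤ m * 3 := by
      rw [hmdef, ← smul_eq_mul]
      apply sum_le_card_nsmul
      intro v _
      have := hcon v
      omega
    omega
  by_cases hsmall : ∃ v, dg T v ≠ 1 ∧ dg T v ≤ 3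
  · obtain ⟨v0, hv0, hv03⟩ := hsmall
    obtain ⟨c, x, hxc, hc4, hx1, hx3⟩ := exists_adj_pair T hT g hg v0 hv0 hv03
    obtain ⟨par, dep, h⟩ := exists_rooted T hT c
    have hxch := mem_ch_of_adj h hxc
    have hxne : x ≠ c := (mem_ch.1 hxch).1
    have hdx := dg_ne h hxne
    apply finish_strength h p hp
    apply caseA c par dep (fun v hv => (h.h1 v hv).2) p (by rw [leaves_card h (by omega), hp])
      (by rw [← dg_root h]; exact hc4) x hxch (by omega) _ b hb
    · rw [hmleaves c par dep h (by omega)]
      omega
    · rw [← card_pos]; omega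
  · push Not at hsmall
    have hm2 : 2 * m + 2 ≤ p := by
      have h2 : m * 4 ≤ ∑ v ∈ univ.filter (fun v => dg T v ≠ 1), dg T v := by
        rw [hmdef, ← smul_eq_mul]
        apply card_nsmul_le_sum
        intro v hv
        exact hsmall v (mem_filter.1 hv).2
      omega
    by_cases hm1 : ∃ v0, dg T v0 ≠ 1 ∧ v0 ≠ g
    · obtain ⟨v0, hv0, hv0g⟩ := hm1
      obtain ⟨c, x, hxc, hc1, hx1, hlast⟩ := exists_last_pair T hT g (by omega) v0 hv0 hv0g
      obtain ⟨par, dep, h⟩ := exists_rooted T hT c
      have hxch := mem_ch_of_adj h hxc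
      have hxne : x ≠ c := (mem_ch.1 hxch).1
      have hdx := dg_ne h hxne
      have hc4 := hsmall c hc1
      have hx4 := hsmall x hx1
      have hxn : (ch c par x).Nonempty := by rw [← card_pos]; omega
      have hxl : ch c par x ⊆ leaves c par := by
        intro u hu
        rw [mem_leaves_iff h hc1]
        exact hlast u (adj_of_mem_ch h hu) (mem_ch.1 hu).1
      apply finish_strength h p hp
      by_cases hm3 : ∃ v0, dg T v0 ≠ 1 ∧ v0 ≠ c ∧ v0 ≠ x
      · obtain ⟨v1, hv1, hv1c, hv1x⟩ := hm3
        obtain ⟨z, hz, hzx, hz1⟩ := exists_second h hc1 x hxl v1 hv1 hv1c hv1x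
        have hzne : z ≠ c := (mem_ch.1 hz).1
        have hdz := dg_ne h hzne
        have hz4 := hsmall z hz1
        apply caseB c par dep (fun v hv => (h.h1 v hv).2) p (by rw [leaves_card h hc1, hp])
          _ (by rw [← dg_root h]; exact hc4) x z hxch hxl hxn hz hzx
        · rw [← card_pos]; omega
        · rw [hmleaves c par dep h hc1]; exact hm2
        · intro v hv hvn
          have hdv := dg_ne h hv
          have := card_pos.2 hvn
          have := hsmall v (by omega)
          omega
      · push Not at hm3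
        apply double_star c par dep (fun v hv => (h.h1 v hv).2) p (by rw [leaves_card h hc1, hp])
          (by rw [← dg_root h]; omega) x hxch hxn
        intro v hvc hvx
        rw [mem_leaves_iff h hc1]
        by_contra hcon
        exact hvx (hm3 v hcon hvc)
    · push Not at hm1
      obtain ⟨par, dep, h⟩ := exists_rooted T hT g
      apply finish_strength h p hp
      apply star g par dep (fun v hv => (h.h1 v hv).2) p
        (by rw [leaves_card h (by omega), hp]) (by rw [← dg_root h]; omega)
      intro v hv
      rw [mem_leaves_iff h (by omega)]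
      by_contra hcon
      exact hv (hm1 v hcon)

end Pool.Agent.Helper999.Irr
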