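import Mathlib

set_option autoImplicit false

namespace Pool.Agent.Helper999.Irr

open Finset

theorem exists_labels {V : Type} [DecidableEq V] (Lf : Finset V) (p : ℕ) (hp : Lf.card = p)
    (S D M : Finset V) (f1 f2 : V → V) (hS : S ⊆ Lf) (hD : D ⊆ Lf) (hSD : Disjoint S D)
    (h1 : ∀ v ∈ M, f1 v ∈ Lf ∧ f1 v ∉ S ∧ f1 v ∉ D)
    (h2 : ∀ v ∈ M, f2 v ∈ Lf ∧ f2 v ∉ S ∧ f2 v ∉ D)
    (i1 : Set.InjOn f1 M) (i2 : Set.InjOn f2 M) (h12 : ∀ u ∈ M, ∀ v ∈ M, f1 u ≠ f2 v) :
    ∃ e : V → ℕ, (∀ f ∈ Lf, 1 ≤ e f ∧ e f ≤ p) ∧ Set.InjOn e Lf ∧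
      (∀ f ∈ S, e f ≤ S.card) ∧ (∀ f ∈ D, p < e f + D.card) ∧
      (∀ v ∈ M, p < e (f1 v) + e (f2 v) + D.card) := by
  classical
  -- the sum type
  let ι : (S ⊕ (M ⊕ (M ⊕ D))) → Lf :=
    Sum.elim (fun a => ⟨a.1, hS a.2⟩)
      (Sum.elim (fun v => ⟨f1 v.1, (h1 v.1 v.2).1⟩)
        (Sum.elim (fun v => ⟨f2 v.1, (h2 v.1 v.2).1⟩) (fun d => ⟨d.1, hD d.2⟩)))
  have hι : Function.Injective ι := by
    rintro (⟨a, ha⟩ | ⟨a, ha⟩ | ⟨a, ha⟩ | ⟨a, ha⟩) (⟨b, hb⟩ | ⟨b, hb⟩ | ⟨b, hb⟩ | ⟨b, hb⟩) h <;>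
      simp only [ι, Sum.elim_inl, Sum.elim_inr, Subtype.mk.injEq] at h
    · subst h; rfl
    · exact absurd (h ▸ ha) (h1 b hb).2.1
    · exact absurd (h ▸ ha) (h2 b hb).2.1
    · subst h; exact absurd hb (Finset.disjoint_left.mp hSD ha)
    · exact absurd (h ▸ hb) (h1 a ha).2.1
    · have := i1 ha hb h; subst this; rfl
    · exact absurd h (h12 a ha b hb)
    · exact absurd (h ▸ hb) (h1 a ha).2.2
    · exact absurd (h ▸ hb) (h2 a ha).2.1
    · exact absurd h.symm (h12 b hb a ha)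
    · have := i2 ha hb h; subst this; rfl
    · exact absurd (h ▸ hb) (h2 a ha).2.2
    · subst h; exact absurd ha (Finset.disjoint_left.mp hSD hb)
    · exact absurd (h ▸ ha) (h1 b hb).2.2
    · exact absurd (h ▸ ha) (h2 b hb).2.2
    · subst h; rfl
  have hcard : S.card + (M.card + (M.card + D.card)) ≤ p := by
    have := Fintype.card_le_of_injective ι hι
    simpa [hp] using this
  let lam : (S ⊕ (M ⊕ (M ⊕ D))) → ℕ :=
    Sum.elim (fun a => (S.equivFin a : ℕ) + 1)
      (Sum.elim (fun v => S.card + 1 + (M.equivFin v : ℕ))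
        (Sum.elim (fun v => p - D.card - (M.equivFin v : ℕ)) (fun d => p - (D.equivFin d : ℕ))))
  have hlam : Function.Injective lam := by
    rintro (a | a | a | a) (b | b | b | b) h <;>
      simp only [lam, Sum.elim_inl, Sum.elim_inr] at h
    · have : S.equivFin a = S.equivFin b := Fin.ext (by omega)
      rw [S.equivFin.injective this]
    · have := (S.equivFin a).2; omega
    · have := (S.equivFin a).2; have := (M.equivFin b).2; omega
    · have := (S.equivFin a).2; have := (D.equivFin b).2; omega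
    · have := (S.equivFin b).2; omega
    · have : M.equivFin a = M.equivFin b := Fin.ext (by omega)
      rw [M.equivFin.injective this]
    · have := (M.equivFin a).2; have := (M.equivFin b).2; omega
    · have := (M.equivFin a).2; have := (D.equivFin b).2; omega
    · have := (S.equivFin b).2; have := (M.equivFin a).2; omega
    · have := (M.equivFin a).2; have := (M.equivFin b).2; omega
    · have h1 := (M.equivFin a).2
      have h2 := (M.equivFin b).2
      have : M.equivFin a = M.equivFin b := Fin.ext (by omega)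
      rw [M.equivFin.injective this]
    · have := (M.equivFin a).2; have := (D.equivFin b).2; omega
    · have := (S.equivFin b).2; have := (D.equivFin a).2; omega
    · have := (M.equivFin b).2; have := (D.equivFin a).2; omega
    · have := (M.equivFin b).2; have := (D.equivFin a).2; omega
    · have h1 := (D.equivFin a).2
      have h2 := (D.equivFin b).2
      have : D.equivFin a = D.equivFin b := Fin.ext (by omega)
      rw [D.equivFin.injective this]
  have hrange : ∀ a, 1 ≤ lam a ∧ lam a ≤ p := by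
    rintro (a | a | a | a) <;> simp only [lam, Sum.elim_inl, Sum.elim_inr]
    · have := (S.equivFin a).2; omega
    · have := (M.equivFin a).2; omega
    · have := (M.equivFin a).2; omega
    · have := (D.equivFin a).2; omega
  -- extend
  let f0 : Lf → ℕ := fun x => if h : ∃ a, ι a = x then lam h.choose else 0
  have hf0 : ∀ a, f0 (ι a) = lam a := by
    intro a
    have h : ∃ b, ι b = ι a := ⟨a, rfl⟩
    simp only [f0, dif_pos h]
    exact congrArg lam (hι h.choose_spec)
  have hct : Fintype.card Lf = (Finset.Icc 1 p).card := by simp [hp]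
  obtain ⟨g, hg⟩ := Finset.exists_equiv_extend_of_card_eq (α := Lf) (β := ℕ) (t := Finset.Icc 1 p)
    hct (s := Finset.univ.image ι) (f := f0)
    (by
      intro y hy
      simp only [Finset.mem_image, Finset.mem_univ, true_and] at hy
      obtain ⟨x, ⟨a, rfl⟩, rfl⟩ := hy
      rw [hf0, Finset.mem_Icc]
      exact hrange a)
    (by
      intro x hx y hy hxy
      simp only [Finset.coe_image, Finset.coe_univ, Set.image_univ, Set.mem_range] at hx hy
      obtain ⟨a, rfl⟩ := hx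
      obtain ⟨b, rfl⟩ := hy
      rw [hf0, hf0] at hxy
      rw [hlam hxy])
  have hgl : ∀ a, (g (ι a) : ℕ) = lam a := by
    intro a
    rw [hg (ι a) (Finset.mem_image_of_mem _ (Finset.mem_univ a)), hf0]
  let e : V → ℕ := fun x => if h : x ∈ Lf then (g ⟨x, h⟩ : ℕ) else 0
  have he : ∀ x (h : x ∈ Lf), e x = (g ⟨x, h⟩ : ℕ) := fun x h => by simp only [e, dif_pos h]
  refine ⟨e, ?_, ?_, ?_, ?_, ?_⟩
  · intro f hf
    rw [he f hf]
    have := (g ⟨f, hf⟩).2
    rw [Finset.mem_Icc] at this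
    exact this
  · intro x hx y hy hxy
    have hx' : x ∈ Lf := hx
    have hy' : y ∈ Lf := hy
    rw [he x hx', he y hy'] at hxy
    have := g.injective (Subtype.ext hxy)
    exact congrArg Subtype.val this
  · intro f hf
    rw [he f (hS hf)]
    have h := hgl (Sum.inl ⟨f, hf⟩)
    have h' : ι (Sum.inl ⟨f, hf⟩) = ⟨f, hS hf⟩ := rfl
    rw [h'] at h
    rw [h]
    simp only [lam, Sum.elim_inl]
    have := (S.equivFin ⟨f, hf⟩).2
    omega
  · intro f hf
    rw [he f (hD hf)]
    have h := hgl (Sum.inr (Sum.inr (Sum.inr ⟨f, hf⟩)))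
    have h' : ι (Sum.inr (Sum.inr (Sum.inr ⟨f, hf⟩))) = ⟨f, hD hf⟩ := rfl
    rw [h'] at h
    rw [h]
    simp only [lam, Sum.elim_inr]
    have := (D.equivFin ⟨f, hf⟩).2
    omega
  · intro v hv
    rw [he _ (h1 v hv).1, he _ (h2 v hv).1]
    have ha := hgl (Sum.inr (Sum.inl ⟨v, hv⟩))
    have ha' : ι (Sum.inr (Sum.inl ⟨v, hv⟩)) = ⟨f1 v, (h1 v hv).1⟩ := rfl
    rw [ha'] at ha
    have hb := hgl (Sum.inr (Sum.inr (Sum.inl ⟨v, hv⟩)))
    have hb' : ι (Sum.inr (Sum.inr (Sum.inl ⟨v, hv⟩))) = ⟨f2 v, (h2 v hv).1⟩ := rfl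
    rw [hb'] at hb
    rw [ha, hb]
    simp only [lam, Sum.elim_inr, Sum.elim_inl]
    have := (M.equivFin ⟨v, hv⟩).2
    omega

end Pool.Agent.Helper999.Irr
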