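import Pool.Agent.Helper999.Irr.Degrees

/-!
Choice of the root.
-/

namespace Pool.Agent.Helper999.Irr

open Finset

/-- If some vertex has degree at least four and some inner vertex has degree at most three, then
some pair of this kind is adjacent. -/
lemma exists_adj_pair {V : Type} [Fintype V] [DecidableEq V] (T : SimpleGraph V) (hT : T.IsTree)
    (g : V) (hg : 4 ≤ dg T g) (v0 : V) (hv0 : dg T v0 ≠ 1) (hv03 : dg T v0 ≤ 3) :
    ∃ c x, T.Adj x c ∧ 4 ≤ dg T c ∧ dg T x ≠ 1 ∧ dg T x ≤ 3 := by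
  classical
  obtain ⟨par, dep, h⟩ := exists_rooted T hT g
  obtain ⟨x, hx, hmin⟩ := exists_min_image (univ.filter (fun v => dg T v ≠ 1 ∧ dg T v ≤ 3)) dep
    ⟨v0, by simp [hv0, hv03]⟩
  rw [mem_filter] at hx
  have hxg : x ≠ g := by
    rintro rfl
    omega
  refine ⟨par x, x, (h.h1 x hxg).1, ?_, hx.2.1, hx.2.2⟩
  by_contra hcon
  have h1 : dg T (par x) ≠ 1 := par_inner h (by omega) hxg
  have h2 := hmin (par x) (by simp [h1]; omega)
  have h3 := (h.h1 x hxg).2
  omega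

/-- A vertex `c` with a child `x` all of whose children are leaves. -/
lemma exists_last_pair {V : Type} [Fintype V] [DecidableEq V] (T : SimpleGraph V) (hT : T.IsTree)
    (g : V) (hg : dg T g ≠ 1) (v0 : V) (hv0 : dg T v0 ≠ 1) (hv0g : v0 ≠ g) :
    ∃ c x, T.Adj x c ∧ dg T c ≠ 1 ∧ dg T x ≠ 1 ∧ (∀ u, T.Adj x u → u ≠ c → dg T u = 1) := by
  classical
  obtain ⟨par, dep, h⟩ := exists_rooted T hT g
  obtain ⟨x, hx, hmax⟩ := exists_max_image (univ.filter (fun v => dg T v ≠ 1 ∧ v ≠ g)) dep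
    ⟨v0, by simp [hv0, hv0g]⟩
  rw [mem_filter] at hx
  refine ⟨par x, x, (h.h1 x hx.2.2).1, par_inner h hg hx.2.2, hx.2.1, ?_⟩
  intro u hu hune
  rcases h.h2 x u hu with h3 | h3
  · exact absurd h3.2.symm hune
  · by_contra hcon
    have h4 := hmax u (by simp [hcon, h3.1])
    have h5 := (h.h1 u h3.1).2
    rw [h3.2] at h5
    omega

lemma mem_ch_of_adj {V : Type} [Fintype V] [DecidableEq V] {T : SimpleGraph V} {c : V}
    {par : V → V} {dep : V → ℕ} (h : Rooted T c par dep) {x : V} (hx : T.Adj x c) :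
    x ∈ ch c par c := by
  rcases h.h2 x c hx with h3 | h3
  · exact mem_ch.2 h3
  · exact absurd rfl h3.1

lemma adj_of_mem_ch {V : Type} [Fintype V] [DecidableEq V] {T : SimpleGraph V} {c : V}
    {par : V → V} {dep : V → ℕ} (h : Rooted T c par dep) {x u : V} (hx : u ∈ ch c par x) :
    T.Adj x u := by
  rw [mem_ch] at hx
  have := (h.h1 u hx.1).1
  rw [hx.2] at this
  exact this.symm

/-- another inner child of the root -/
lemma exists_second {V : Type} [Fintype V] [DecidableEq V] {T : SimpleGraph V} {c : V}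
    {par : V → V} {dep : V → ℕ} (h : Rooted T c par dep) (hc : dg T c ≠ 1) (x : V)
    (hxl : ch c par x ⊆ leaves c par) (v0 : V) (hv0 : dg T v0 ≠ 1) (hv0c : v0 ≠ c)
    (hv0x : v0 ≠ x) :
    ∃ z ∈ ch c par c, z ≠ x ∧ dg T z ≠ 1 := by
  classical
  obtain ⟨z, hz, hmin⟩ := exists_min_image
    (univ.filter (fun v => dg T v ≠ 1 ∧ v ≠ c ∧ v ≠ x)) dep
    ⟨v0, by simp [hv0, hv0c, hv0x]⟩
  rw [mem_filter] at hz
  obtain ⟨-, hz1, hzc, hzx⟩ := hz
  refine ⟨z, mem_ch.2 ⟨hzc, ?_⟩, hzx, hz1⟩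
  by_contra hcon
  have h1 : par z ≠ x := by
    intro h2
    have h3 : z ∈ leaves c par := hxl (mem_ch.2 ⟨hzc, h2⟩)
    exact hz1 ((mem_leaves_iff h hc z).1 h3)
  have h2 := hmin (par z) (by simp [par_inner h hc hzc, hcon, h1])
  have h3 := (h.h1 z hzc).2
  omega

end Pool.Agent.Helper999.Irr
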