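import Mathlib

/-!
The greedy step for the irregularity strength of trees.
-/

namespace Pool.Agent.Helper999.Irr

open Finset

lemma cover_card {V : Type} [DecidableEq V] (K : Finset V) (W : V → ℕ) (R : Finset ℕ)
    (Res : ℕ → Prop) [DecidablePred Res]
    (h : ∀ t ∈ R, (∃ u ∈ K, W u = t) ∨ Res t) :
    R.card ≤ (K.filter (fun u => W u ∈ R)).card + (R.filter Res).card := by
  have h1 : R ⊆ ((K.filter (fun u => W u ∈ R)).image W) ∪ (R.filter Res) := by
    intro t ht
    rcases h t ht with ⟨u, hu, rfl⟩ | h2
    · exact mem_union_left _ (mem_image_of_mem _ (mem_filter.2 ⟨hu, ht⟩))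
    · exact mem_union_right _ (mem_filter.2 ⟨ht, h2⟩)
  calc R.card ≤ _ := card_le_card h1
    _ ≤ _ := card_union_le _ _
    _ ≤ _ := Nat.add_le_add_right card_image_le _

/-- the sum of the weights of the edges at `v`, for a non-root vertex -/
def W1 {V : Type} (ch : V → Finset V) (e : V → ℕ) (v : V) : ℕ := ∑ u ∈ ch v, e u + e v

/-- the counting function of the greedy invariant -/
def NN {V : Type} [DecidableEq V] (ch : V → Finset V) (Res : ℕ → Prop) [DecidablePred Res]
    (p : ℕ) (K : Finset V) (e : V → ℕ) (i : ℕ) : ℕ :=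
  (K.filter (fun u => 2 * p < W1 ch e u + i)).card +
    ((Ioc (2 * p - i) (2 * p)).filter Res).card

/-- the invariant of the greedy procedure -/
structure Ok {V : Type} [DecidableEq V] (ch : V → Finset V) (Lf S Sp : Finset V)
    (Res : ℕ → Prop) [DecidablePred Res] (p eps q : ℕ) (e0 : V → ℕ)
    (K : Finset V) (e : V → ℕ) : Prop where
  leaf : ∀ f ∈ Lf, e f = e0 f
  rng : ∀ v ∈ K, 1 ≤ e v ∧ e v ≤ p ∧ p < W1 ch e v
  inj : Set.InjOn (W1 ch e) K
  spec : ∀ v ∈ K, v ∈ Sp → p < e v + q
  res : ∀ v ∈ K, v ∉ Sp → ¬ Res (W1 ch e v)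
  inv : ∀ v ∈ K, v ∉ Sp → ∀ i, i + e v ≤ p → i ≤ NN ch Res p K e i + eps
  full : ∀ v ∈ S, e v = p

theorem greedy_step {V : Type} [DecidableEq V]
    (ch : V → Finset V) (dep : V → ℕ) (hdep : ∀ v, ∀ u ∈ ch v, dep v < dep u)
    (Lf Inn S Sp : Finset V)
    (Res : ℕ → Prop) [DecidablePred Res]
    (p g rho eps q : ℕ)
    (e0 : V → ℕ)
    (hS1 : ∀ v ∈ S, ch v ⊆ Lf ∧ 1 ≤ ∑ u ∈ ch v, e0 u ∧ ∑ u ∈ ch v, e0 u ≤ g)
    (hg : S.card = g)
    (hR1 : ∀ a L, L ≤ p → ((Ioc a (a + L)).filter Res).card ≤ rho)
    (hR3 : ∀ r, Res r → p + g < r)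
    (hre : rho ≤ eps) (hnum : Inn.card + rho + eps + q ≤ p)
    (K : Finset V) (v : V) (hvK : v ∉ K) (hKI : insert v K ⊆ Inn) (hSK : S ⊆ K)
    (e : V → ℕ) (ok : Ok ch Lf S Sp Res p eps q e0 K e)
    (hnv : ∀ u ∈ K, v ∉ ch u) (hvL : v ∉ Lf)
    (hstar : ∀ i, i + ∑ u ∈ ch v, e u ≤ p → i ≤ NN ch Res p K e i + eps)
    (hR2 : v ∈ Sp → ∀ a, p + g ≤ a → ∃ r ∈ Ioc a (a + q), Res r ∧ ∀ u ∈ K, W1 ch e u ≠ r) :
    ∃ e' : V → ℕ, (∀ u, u ≠ v → e' u = e u) ∧
      Ok ch Lf S Sp Res p eps q e0 (insert v K) e' := by
  classical
  have hcard : K.card + 1 ≤ Inn.card := by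
    rw [← card_insert_of_notMem hvK]; exact card_le_card hKI
  set A := ∑ u ∈ ch v, e u with hA
  -- leaf ends have small weights
  have hSW : ∀ u ∈ S, W1 ch e u ≤ p + g := by
    intro u hu
    have h1 := ok.full u hu
    obtain ⟨h2, h3, h4⟩ := hS1 u hu
    have h5 : ∑ x ∈ ch u, e x = ∑ x ∈ ch u, e0 x := sum_congr rfl (fun x hx => ok.leaf x (h2 hx))
    unfold W1
    rw [h5, h1]; omega
  -- existence of a free value which is not reserved
  have hfree : ∃ t ∈ Ioc (max p A) (A + p), (∀ u ∈ K, W1 ch e u ≠ t) ∧ ¬ Res t := by
    by_contra hcon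
    push Not at hcon
    by_cases hpA : p ≤ A
    · have h1 := cover_card K (W1 ch e) (Ioc A (A + p)) Res (by
        intro t ht
        by_contra h2
        push Not at h2
        exact h2.2 (hcon t (by rwa [max_eq_right hpA]) h2.1))
      have h2 := hR1 A p le_rfl
      have h3 : (K.filter (fun u => W1 ch e u ∈ Ioc A (A + p))).card ≤ K.card :=
        card_filter_le _ _
      rw [Nat.card_Ioc] at h1
      omega
    · push Not at hpA
      have h1 := cover_card K (W1 ch e) (Ioc p (A + p)) Res (by
        intro t ht
        by_contra h2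
        push Not at h2
        exact h2.2 (hcon t (by rwa [max_eq_left hpA.le]) h2.1))
      have h2 := hstar (p - A) (by omega)
      rw [Nat.card_Ioc] at h1
      unfold NN at h2
      have e1 : 2 * p - (p - A) = A + p := by omega
      rw [e1] at h2
      have h3 : (K.filter (fun u => W1 ch e u ∈ Ioc p (A + p))).card +
          (K.filter (fun u => 2 * p < W1 ch e u + (p - A))).card ≤ K.card := by
        rw [← card_union_of_disjoint]
        · exact card_le_card (union_subset (filter_subset _ _) (filter_subset _ _))
        · rw [disjoint_filter]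
          intro u _ hu1 hu2
          rw [mem_Ioc] at hu1
          omega
      have h4 : ((Ioc p (A + p)).filter Res).card + ((Ioc (A + p) (2 * p)).filter Res).card
          ≤ rho := by
        rw [← card_union_of_disjoint]
        · refine le_trans (card_le_card ?_) (hR1 p p le_rfl)
          intro t ht
          rw [mem_union, mem_filter, mem_filter, mem_Ioc, mem_Ioc] at ht
          rw [mem_filter, mem_Ioc]
          rcases ht with ⟨h, h'⟩ | ⟨h, h'⟩
          · exact ⟨by omega, h'⟩
          · exact ⟨by omega, h'⟩
        · rw [disjoint_left]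
          intro t ht ht'
          rw [mem_filter, mem_Ioc] at ht ht'
          omega
      omega
  -- the set of admissible values
  set F := (Ioc (max p A) (A + p)).filter
    (fun t => (∀ u ∈ K, W1 ch e u ≠ t) ∧ (v ∈ Sp ∨ ¬ Res t)) with hF
  have hFne : F.Nonempty := by
    obtain ⟨t, ht, ht1, ht2⟩ := hfree
    exact ⟨t, mem_filter.2 ⟨ht, ht1, Or.inr ht2⟩⟩
  set t := F.max' hFne with ht
  have htF : t ∈ F := F.max'_mem hFne
  have htmax : ∀ s ∈ F, s ≤ t := fun s hs => F.le_max' s hs
  have ht1 := (mem_filter.1 htF).1
  obtain ⟨ht2, ht3⟩ := (mem_filter.1 htF).2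
  rw [mem_Ioc] at ht1
  have htA : A < t := lt_of_le_of_lt (le_max_right _ _) ht1.1
  have htp : p < t := lt_of_le_of_lt (le_max_left _ _) ht1.1
  -- the new weights
  set e' : V → ℕ := Function.update e v (t - A) with he'
  have hev : e' v = t - A := by simp [he']
  have hne : ∀ u, u ≠ v → e' u = e u := fun u hu => Function.update_of_ne hu _ _
  have hvv : v ∉ ch v := fun h => lt_irrefl _ (hdep v v h)
  have hsumv : ∑ u ∈ ch v, e' u = A :=
    sum_congr rfl (fun u hu => hne u (fun h => hvv (h ▸ hu)))
  have hWv : W1 ch e' v = t := by unfold W1; rw [hsumv, hev]; omega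
  have hWK : ∀ u ∈ K, W1 ch e' u = W1 ch e u := by
    intro u hu
    unfold W1
    rw [hne u (fun h => hvK (h ▸ hu))]
    congr 1
    exact sum_congr rfl (fun x hx => hne x (fun h => hnv u hu (h ▸ hx)))
  have hNmono : ∀ i, NN ch Res p K e i ≤ NN ch Res p (insert v K) e' i := by
    intro i
    unfold NN
    refine Nat.add_le_add_right (card_le_card ?_) _
    intro u hu
    rw [mem_filter] at hu ⊢
    exact ⟨mem_insert_of_mem hu.1, by rw [hWK u hu.1]; exact hu.2⟩
  have hrun : v ∉ Sp → ∀ s, t < s → s ≤ A + p → (∃ u ∈ K, W1 ch e u = s) ∨ Res s := by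
    intro _ s hs1 hs2
    by_contra hcon
    push Not at hcon
    have : s ∈ F := mem_filter.2 ⟨mem_Ioc.2 ⟨lt_trans ht1.1 hs1, hs2⟩, hcon.1, Or.inr hcon.2⟩
    exact absurd (htmax s this) (by omega)
  refine ⟨e', hne, ?_⟩
  constructor
  · intro f hf
    rw [hne f (fun h => hvL (h ▸ hf))]
    exact ok.leaf f hf
  · intro u hu
    rcases mem_insert.1 hu with rfl | hu
    · refine ⟨by rw [hev]; omega, by rw [hev]; omega, by rw [hWv]; exact htp⟩
    · rw [hWK u hu, hne u (fun h => hvK (h ▸ hu))]
      exact ok.rng u hu
  · intro a ha b hb hab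
    rw [mem_coe, mem_insert] at ha hb
    rcases ha with rfl | ha <;> rcases hb with rfl | hb
    · rfl
    · rw [hWv, hWK b hb] at hab
      exact absurd hab.symm (ht2 b hb)
    · rw [hWv, hWK a ha] at hab
      exact absurd hab (ht2 a ha)
    · rw [hWK a ha, hWK b hb] at hab
      exact ok.inj ha hb hab
  · intro u hu huS
    rcases mem_insert.1 hu with rfl | hu
    · -- special vertex
      have hAgq : g + q ≤ A := by
        by_contra hlt
        push Not at hlt
        have hgI : g ≤ Inn.card := by
          rw [← hg]; exact card_le_card (hSK.trans ((subset_insert _ _).trans hKI))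
        have h1 := hstar (p - g - q) (by omega)
        unfold NN at h1
        have h2 : (K.filter (fun x => 2 * p < W1 ch e x + (p - g - q))).card + S.card ≤ K.card := by
          rw [← card_union_of_disjoint]
          · exact card_le_card (union_subset (filter_subset _ _) hSK)
          · rw [disjoint_left]
            intro x hx hxS
            rw [mem_filter] at hx
            have := hSW x hxS
            omega
        have h3 : ((Ioc (2 * p - (p - g - q)) (2 * p)).filter Res).card ≤ rho := by
          refine le_trans (card_le_card ?_) (hR1 p p le_rfl)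
          intro x hx
          rw [mem_filter, mem_Ioc] at hx ⊢
          exact ⟨by omega, hx.2⟩
        omega
      obtain ⟨r, hr1, hr2, hr3⟩ := hR2 huS (A + p - q) (by omega)
      rw [mem_Ioc] at hr1
      have hrF : r ∈ F := by
        refine mem_filter.2 ⟨mem_Ioc.2 ⟨?_, by omega⟩, hr3, Or.inl huS⟩
        have := hR3 r hr2
        rw [max_lt_iff]
        constructor <;> omega
      have := htmax r hrF
      rw [hev]; omega
    · rw [hne u (fun h => hvK (h ▸ hu))]
      exact ok.spec u hu huS
  · intro u hu huS
    rcases mem_insert.1 hu with rfl | hu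
    · rw [hWv]
      rcases ht3 with h | h
      · exact absurd h huS
      · exact h
    · rw [hWK u hu]; exact ok.res u hu huS
  · intro u hu huS i hi
    rcases mem_insert.1 hu with rfl | hu
    · refine le_trans ?_ (Nat.add_le_add_right (hNmono i) eps)
      rw [hev] at hi
      have hiA : i ≤ A + p - t := by omega
      by_cases hpA : p ≤ A
      · have h1 := cover_card K (W1 ch e) (Ioc (A + p - i) (A + p)) Res (by
          intro s hs
          rw [mem_Ioc] at hs
          exact hrun huS s (by omega) hs.2)
        have h2 : ((Ioc (A + p - i) (A + p)).filter Res).card ≤ rho := by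
          have := hR1 (A + p - i) i (by omega)
          have e2 : A + p - i + i = A + p := by omega
          rwa [e2] at this
        have h3 : (K.filter (fun x => W1 ch e x ∈ Ioc (A + p - i) (A + p))).card ≤
            (K.filter (fun x => 2 * p < W1 ch e x + i)).card := by
          apply card_le_card
          intro x hx
          rw [mem_filter, mem_Ioc] at hx
          rw [mem_filter]
          exact ⟨hx.1, by omega⟩
        rw [Nat.card_Ioc] at h1
        unfold NN
        omega
      · push Not at hpA
        by_cases hid : i + A ≤ p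
        · exact hstar i hid
        · push Not at hid
          have h0 := hstar (p - A) (by omega)
          have h1 := cover_card K (W1 ch e) (Ioc (2 * p - i) (A + p)) Res (by
            intro s hs
            rw [mem_Ioc] at hs
            exact hrun huS s (by omega) hs.2)
          rw [Nat.card_Ioc] at h1
          unfold NN at h0 ⊢
          have e1 : 2 * p - (p - A) = A + p := by omega
          rw [e1] at h0
          have h3 : (K.filter (fun x => W1 ch e x ∈ Ioc (2 * p - i) (A + p))).card +
              (K.filter (fun x => 2 * p < W1 ch e x + (p - A))).card ≤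
              (K.filter (fun x => 2 * p < W1 ch e x + i)).card := by
            rw [← card_union_of_disjoint]
            · apply card_le_card
              intro x hx
              rw [mem_union, mem_filter, mem_filter, mem_Ioc] at hx
              rw [mem_filter]
              rcases hx with ⟨hx, hx'⟩ | ⟨hx, hx'⟩
              · exact ⟨hx, by omega⟩
              · exact ⟨hx, by omega⟩
            · rw [disjoint_filter]
              intro u _ hu1 hu2
              rw [mem_Ioc] at hu1
              omega
          have h4 : ((Ioc (2 * p - i) (A + p)).filter Res).card +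
              ((Ioc (A + p) (2 * p)).filter Res).card ≤
              ((Ioc (2 * p - i) (2 * p)).filter Res).card := by
            rw [← card_union_of_disjoint]
            · apply card_le_card
              intro x hx
              rw [mem_union, mem_filter, mem_filter, mem_Ioc, mem_Ioc] at hx
              rw [mem_filter, mem_Ioc]
              rcases hx with ⟨hx, hx'⟩ | ⟨hx, hx'⟩
              · exact ⟨by omega, hx'⟩
              · exact ⟨by omega, hx'⟩
            · rw [disjoint_left]
              intro x hx hx'
              rw [mem_filter, mem_Ioc] at hx hx'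
              omega
          omega
    · rw [hne u (fun h => hvK (h ▸ hu))] at hi
      exact le_trans (ok.inv u hu huS i hi) (Nat.add_le_add_right (hNmono i) eps)
  · intro u hu
    rw [hne u (fun h => hvK (h ▸ hSK hu))]
    exact ok.full u hu

end Pool.Agent.Helper999.Irr
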