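import Pool.Agent.Helper999.Irr.T1

/-!
The greedy procedure for the irregularity strength of trees.
-/

namespace Pool.Agent.Helper999.Irr

open Finset

theorem greedy {V : Type} [DecidableEq V]
    (ch : V → Finset V) (dep : V → ℕ) (hdep : ∀ v, ∀ u ∈ ch v, dep v < dep u)
    (Lf Inn S Sp : Finset V) (hLI : Disjoint Lf Inn) (hSI : S ⊆ Inn)
    (Res : ℕ → Prop) [DecidablePred Res]
    (p g rho eps q : ℕ)
    (e0 : V → ℕ)
    (hS1 : ∀ v ∈ S, ch v ⊆ Lf ∧ 1 ≤ ∑ u ∈ ch v, e0 u ∧ ∑ u ∈ ch v, e0 u ≤ g)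
    (hS2 : Set.InjOn (fun v => ∑ u ∈ ch v, e0 u) S)
    (hg : S.card = g)
    (hN : ∀ v ∈ Inn, v ∉ S →
      (∃ u ∈ ch v, u ∈ Inn ∧ u ∉ Sp) ∨ (ch v ⊆ Lf ∧ p ≤ ∑ u ∈ ch v, e0 u + eps))
    (hR1 : ∀ a L, L ≤ p → ((Ioc a (a + L)).filter Res).card ≤ rho)
    (hR2 : ∀ v ∈ Sp, ∀ a, p + g ≤ a → 4 ≤ ((Ioc a (a + q)).filter Res).card)
    (hR3 : ∀ r, Res r → p + g < r)
    (hSp : Sp.card ≤ 4)
    (hre : rho ≤ eps) (hq : 1 ≤ q) (hnum : Inn.card + rho + eps + q ≤ p) :
    ∃ e : V → ℕ, Ok ch Lf S Sp Res p eps q e0 Inn e := by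
  classical
  suffices H : ∀ n : ℕ, ∀ K : Finset V, K.card = n → S ⊆ K → K ⊆ Inn →
      (∀ v ∈ K, ∀ u ∈ ch v, u ∈ Inn → u ∈ K) →
      ∃ e : V → ℕ, Ok ch Lf S Sp Res p eps q e0 K e from
    H _ Inn rfl hSI (Subset.refl _) (fun _ _ _ _ h => h)
  intro n
  induction n using Nat.strong_induction_on with
  | _ n ih =>
  intro K hKn hSK hKI hcl
  by_cases hKS : K ⊆ S
  · -- the base case
    have hKS' : K = S := Subset.antisymm hKS hSK
    subst hKS'
    have hLS : ∀ f ∈ Lf, f ∉ K := fun f hf hfK => disjoint_left.1 hLI hf (hKI hfK)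
    have hsum : ∀ v ∈ K, ∑ u ∈ ch v, (if u ∈ K then p else e0 u) = ∑ u ∈ ch v, e0 u := by
      intro v hv
      refine sum_congr rfl (fun u hu => if_neg (hLS u ((hS1 v hv).1 hu)))
    have hW : ∀ v ∈ K, W1 ch (fun v => if v ∈ K then p else e0 v) v =
        ∑ u ∈ ch v, e0 u + p := by
      intro v hv
      unfold W1
      rw [hsum v hv]
      simp only [if_pos hv]
    refine ⟨fun v => if v ∈ K then p else e0 v, ?_⟩
    constructor
    · intro f hf
      exact if_neg (hLS f hf)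
    · intro v hv
      have := (hS1 v hv).2.1
      rw [hW v hv]
      simp only [if_pos hv]
      omega
    · intro a ha b hb hab
      rw [hW a ha, hW b hb] at hab
      exact hS2 ha hb (by simpa using hab)
    · intro v hv _
      simp only [if_pos hv]
      omega
    · intro v hv _ hr
      rw [hW v hv] at hr
      have h1 := hR3 _ hr
      have h2 := (hS1 v hv).2.2
      omega
    · intro v hv _ i hi
      simp only [if_pos hv] at hi
      omega
    · intro v hv
      exact if_pos hv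
  · have hne : (K \ S).Nonempty := by
      obtain ⟨x, hx, hxS⟩ := not_subset.1 hKS
      exact ⟨x, mem_sdiff.2 ⟨hx, hxS⟩⟩
    obtain ⟨v, hv, hvmin⟩ := exists_min_image (K \ S) dep hne
    rw [mem_sdiff] at hv
    have hnv : ∀ u ∈ K, v ∉ ch u := by
      intro u hu hvu
      by_cases huS : u ∈ S
      · exact disjoint_left.1 hLI ((hS1 u huS).1 hvu) (hKI hv.1)
      · have h1 := hvmin u (mem_sdiff.2 ⟨hu, huS⟩)
        have h2 := hdep u v hvu
        omega
    have hcl' : ∀ w ∈ K.erase v, ∀ u ∈ ch w, u ∈ Inn → u ∈ K.erase v := by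
      intro w hw u hu huI
      rw [mem_erase] at hw ⊢
      refine ⟨?_, hcl w hw.2 u hu huI⟩
      rintro rfl
      exact hnv w hw.2 hu
    have hSK' : S ⊆ K.erase v := fun x hx =>
      mem_erase.2 ⟨fun h => hv.2 (h ▸ hx), hSK hx⟩
    have hlt : (K.erase v).card < n := by
      rw [← hKn]; exact card_erase_lt_of_mem hv.1
    obtain ⟨e, ok⟩ := ih _ hlt (K.erase v) rfl hSK' ((erase_subset _ _).trans hKI) hcl'
    have hins : insert v (K.erase v) = K := insert_erase hv.1
    have hvL : v ∉ Lf := fun h => disjoint_left.1 hLI h (hKI hv.1)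
    have hstar : ∀ i, i + ∑ u ∈ ch v, e u ≤ p → i ≤ NN ch Res p (K.erase v) e i + eps := by
      intro i hi
      rcases hN v (hKI hv.1) hv.2 with ⟨u, hu, huI, huS⟩ | ⟨h1, h2⟩
      · have huK : u ∈ K.erase v := by
          rw [mem_erase]
          refine ⟨?_, hcl v hv.1 u hu huI⟩
          rintro rfl
          exact lt_irrefl _ (hdep u u hu)
        have h3 : e u ≤ ∑ x ∈ ch v, e x := single_le_sum (fun _ _ => Nat.zero_le _) hu
        exact ok.inv u huK huS i (by omega)
      · have h3 : ∑ x ∈ ch v, e x = ∑ x ∈ ch v, e0 x :=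
          sum_congr rfl (fun x hx => ok.leaf x (h1 hx))
        omega
    have hR2' : v ∈ Sp → ∀ a, p + g ≤ a → ∃ r ∈ Ioc a (a + q), Res r ∧
        ∀ u ∈ K.erase v, W1 ch e u ≠ r := by
      intro hvSp a ha
      by_contra hcon
      push Not at hcon
      have h1 := hR2 v hvSp a ha
      have h2 : (Ioc a (a + q)).filter Res ⊆ (Sp.erase v).image (W1 ch e) := by
        intro r hr
        rw [mem_filter] at hr
        obtain ⟨u, hu, hur⟩ := hcon r hr.1 hr.2
        rw [mem_image]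
        refine ⟨u, ?_, hur⟩
        rw [mem_erase]
        refine ⟨(mem_erase.1 hu).1, ?_⟩
        by_contra huS
        exact ok.res u hu huS (hur ▸ hr.2)
      have h3 := card_le_card h2
      have h4 : ((Sp.erase v).image (W1 ch e)).card ≤ (Sp.erase v).card := card_image_le
      have h5 : (Sp.erase v).card < Sp.card := card_erase_lt_of_mem hvSp
      omega
    obtain ⟨e', -, ok'⟩ := greedy_step ch dep hdep Lf Inn S Sp Res p g rho eps q e0 hS1 hg hR1
      hR3 hre hnum (K.erase v) v (notMem_erase _ _) (by rw [hins]; exact hKI) hSK' e ok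
      (fun u hu => hnv u (mem_of_mem_erase hu)) hvL hstar hR2'
    rw [hins] at ok'
    exact ⟨e', ok'⟩

end Pool.Agent.Helper999.Irr
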