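import Pool.Agent.Helper999.Irr.T1b
import Pool.Agent.Helper999.Irr.Labels

/-!
Rooted trees given by a parent function.
-/

namespace Pool.Agent.Helper999.Irr

open Finset

/-- the children of `v` in the rooted tree with root `c` and parent function `par` -/
def ch {V : Type} [Fintype V] [DecidableEq V] (c : V) (par : V → V) (v : V) : Finset V :=
  univ.filter (fun u => u ≠ c ∧ par u = v)

/-- the leaves (vertices other than the root without children) -/
def leaves {V : Type} [Fintype V] [DecidableEq V] (c : V) (par : V → V) : Finset V :=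
  univ.filter (fun v => v ≠ c ∧ ch c par v = ∅)

/-- the weighted degrees -/
def W {V : Type} [Fintype V] [DecidableEq V] (c : V) (par : V → V) (e : V → ℕ) (v : V) : ℕ :=
  (∑ u ∈ ch c par v, e u) + if v = c then 0 else e v

lemma mem_ch {V : Type} [Fintype V] [DecidableEq V] {c : V} {par : V → V} {u v : V} :
    u ∈ ch c par v ↔ u ≠ c ∧ par u = v := by
  simp [ch]

lemma mem_leaves {V : Type} [Fintype V] [DecidableEq V] {c : V} {par : V → V} {v : V} :
    v ∈ leaves c par ↔ v ≠ c ∧ ch c par v = ∅ := by
  simp [leaves]

lemma W_injective {V : Type} [Fintype V] [DecidableEq V] (c : V) (par : V → V) (p : ℕ)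
    (e : V → ℕ) (h1 : ∀ f ∈ leaves c par, 1 ≤ e f ∧ e f ≤ p) (h2 : Set.InjOn e (leaves c par))
    (h3 : ∀ v, v ∉ leaves c par → p < W c par e v)
    (h4 : ∀ u v, u ∉ leaves c par → v ∉ leaves c par → W c par e u = W c par e v → u = v) :
    Function.Injective (W c par e) := by
  have hl : ∀ f ∈ leaves c par, W c par e f = e f := by
    intro f hf
    rw [mem_leaves] at hf
    unfold W
    rw [hf.2, if_neg hf.1]
    simp
  intro u v huv
  by_cases hu : u ∈ leaves c par <;> by_cases hv : v ∈ leaves c par
  · rw [hl u hu, hl v hv] at huv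
    exact h2 hu hv huv
  · have := h3 v hv
    rw [← huv, hl u hu] at this
    have := (h1 u hu).2
    omega
  · have := h3 u hu
    rw [huv, hl v hv] at this
    have := (h1 v hv).2
    omega
  · exact h4 u v hu hv huv

end Pool.Agent.Helper999.Irr
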